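import Mathlib
import Pool.Agent.TH118.CR.Final

/-!
# Linear algebra: eigenspaces, base change of commutants
-/

set_option autoImplicit false

namespace Pool.Agent.Helper8K9.CR

open Module TensorProduct Polynomial
open Pool.Agent.H204R3.SP Pool.Agent.H204R3.GP Pool.Agent.W522.U

noncomputable section

section diag

variable {K X : Type} [Field K] [AddCommGroup X] [Module K X]

/-- A vector killed by a product of distinct linear factors is a sum of eigenvectors. -/
theorem mem_iSup_eigenspace (f : End K X) (s : Finset K) (x : X)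
    (hx : aeval f (∏ a ∈ s, (Polynomial.X - C a)) x = 0) :
    x ∈ ⨆ a ∈ s, End.eigenspace f a := by
  classical
  induction s using Finset.induction_on generalizing x with
  | empty =>
    simp only [Finset.prod_empty, map_one, End.one_apply] at hx
    rw [hx]
    exact Submodule.zero_mem _
  | insert a s ha ih =>
    -- Bezout for `X - a` and the product
    have hco : IsCoprime (Polynomial.X - C a) (∏ b ∈ s, (Polynomial.X - C b)) := by
      refine IsCoprime.prod_right fun b hb => ?_
      exact Polynomial.isCoprime_X_sub_C_of_isUnit_sub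
        (IsUnit.mk0 _ (sub_ne_zero.2 fun h => ha (h ▸ hb)))
    obtain ⟨u, v, huv⟩ := hco
    rw [Finset.prod_insert ha] at hx
    have h1 : x = aeval f (u * (Polynomial.X - C a)) x +
        aeval f (v * ∏ b ∈ s, (Polynomial.X - C b)) x := by
      rw [← LinearMap.add_apply, ← map_add, huv, map_one]
      rfl
    rw [h1]
    refine Submodule.add_mem _ ?_ ?_
    · have h2 := ih (aeval f (u * (Polynomial.X - C a)) x) (by
        rw [← End.mul_apply, ← map_mul]
        have h3 : (∏ a ∈ s, (Polynomial.X - C a)) * (u * (Polynomial.X - C a)) =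
          u * ((Polynomial.X - C a) * ∏ b ∈ s, (Polynomial.X - C b)) := by ring
        rw [h3, map_mul, End.mul_apply, hx, map_zero])
      refine (iSup₂_le fun b hb => ?_ : (⨆ b ∈ s, End.eigenspace f b) ≤ _) h2
      exact le_iSup₂_of_le b (Finset.mem_insert_of_mem hb) le_rfl
    · refine Submodule.mem_iSup_of_mem a (Submodule.mem_iSup_of_mem (Finset.mem_insert_self a s) ?_)
      rw [End.mem_eigenspace_iff]
      have h2 : aeval f ((Polynomial.X - C a) * (v * ∏ b ∈ s, (Polynomial.X - C b))) x = 0 := by
        have h3 : (Polynomial.X - C a) * (v * ∏ b ∈ s, (Polynomial.X - C b)) =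
          v * ((Polynomial.X - C a) * ∏ b ∈ s, (Polynomial.X - C b)) := by ring
        rw [h3, map_mul, End.mul_apply, hx, map_zero]
      rw [map_mul, End.mul_apply, map_sub, aeval_X, aeval_C, LinearMap.sub_apply] at h2
      exact sub_eq_zero.1 h2

/-- A basis of eigenvectors. -/
theorem exists_eigenbasis [FiniteDimensional K X] (f : End K X)
    (h : ⨆ a : K, End.eigenspace f a = ⊤) :
    ∃ b : Basis (Fin (finrank K X)) K X, ∀ k, ∃ a : K, f (b k) = a • b k := by
  classical
  have hind := End.eigenspaces_iSupIndep f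
  have hint : DirectSum.IsInternal fun a : K => End.eigenspace f a := by
    rw [DirectSum.isInternal_submodule_iff_iSupIndep_and_iSup_eq_top]
    exact ⟨hind, h⟩
  let b := hint.collectedBasis fun a => finBasis K (End.eigenspace f a)
  have hfin : Fintype (Σ a : K, Fin (finrank K (End.eigenspace f a))) :=
    FiniteDimensional.fintypeBasisIndex b
  have hcard : Fintype.card (Σ a : K, Fin (finrank K (End.eigenspace f a))) = finrank K X :=
    (finrank_eq_card_basis b).symm
  let e := Fintype.equivFinOfCardEq hcard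
  refine ⟨b.reindex e, fun k => ⟨(e.symm k).1, ?_⟩⟩
  rw [Basis.reindex_apply]
  have h1 := hint.collectedBasis_mem (fun a => finBasis K (End.eigenspace f a)) (e.symm k)
  exact End.mem_eigenspace_iff.1 h1

end diag

section commutant

variable {k V : Type} [Field k] [AddCommGroup V] [Module k V]
  (Ω : Type) [Field Ω] [Algebra k Ω]

/-- The coordinates of a vector of the extended space. -/
def coo {I : Type} (e : Basis I k Ω) (i : I) : Ω ⊗[k] V →ₗ[k] V :=
  (TensorProduct.lid k V).toLinearMap.comp ((e.coord i).rTensor V)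

theorem coo_tmul {I : Type} (e : Basis I k Ω) (i : I) (a : Ω) (v : V) :
    coo Ω e i (a ⊗ₜ[k] v) = e.coord i a • v := by
  rw [coo, LinearMap.comp_apply, LinearMap.rTensor_tmul]
  exact TensorProduct.lid_tmul _ _

theorem coo_map {I : Type} (e : Basis I k Ω) (i : I) (T : End k V) (x : Ω ⊗[k] V) :
    coo Ω e i (T.baseChange Ω x) = T (coo Ω e i x) := by
  induction x with
  | zero => simp only [map_zero]
  | add x y hx hy => simp only [map_add, hx, hy]
  | tmul a v =>
    rw [LinearMap.baseChange_tmul, coo_tmul, coo_tmul, map_smul]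

theorem coo_sum {I : Type} (e : Basis I k Ω) (x : Ω ⊗[k] V) :
    ∃ s : Finset I, ∀ t : Finset I, s ⊆ t → x = ∑ i ∈ t, e i ⊗ₜ[k] coo Ω e i x := by
  classical
  induction x with
  | zero => exact ⟨∅, fun t _ => by simp⟩
  | add x y hx hy =>
    obtain ⟨s, hs⟩ := hx
    obtain ⟨s', hs'⟩ := hy
    refine ⟨s ∪ s', fun t ht => ?_⟩
    simp only [map_add, tmul_add, Finset.sum_add_distrib]
    rw [← hs t (Finset.union_subset_left ht), ← hs' t (Finset.union_subset_right ht)]
  | tmul a v =>
    refine ⟨(e.repr a).support, fun t ht => ?_⟩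
    have h1 : ∀ i, e i ⊗ₜ[k] coo Ω e i (a ⊗ₜ[k] v) = ((e.repr a) i • e i) ⊗ₜ[k] v := by
      intro i
      rw [coo_tmul, tmul_smul, smul_tmul']
      rfl
    rw [Finset.sum_congr rfl fun i _ => h1 i, ← sum_tmul]
    congr 1
    conv_lhs => rw [← e.linearCombination_repr a]
    rw [Finsupp.linearCombination_apply, Finsupp.sum_of_support_subset _ ht _ (by simp)]

/-- The components of an operator on the extended space. -/
def comp {I : Type} (e : Basis I k Ω) (P : End Ω (Ω ⊗[k] V)) (i : I) : End k V :=
  (coo Ω e i).comp ((P.restrictScalars k).comp (TensorProduct.mk k Ω V 1))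

theorem comp_apply {I : Type} (e : Basis I k Ω) (P : End Ω (Ω ⊗[k] V)) (i : I) (v : V) :
    comp Ω e P i v = coo Ω e i (P ((1 : Ω) ⊗ₜ[k] v)) := rfl

variable [FiniteDimensional k V]

theorem comp_sum {I : Type} (e : Basis I k Ω) (P : End Ω (Ω ⊗[k] V)) :
    ∃ s : Finset I, ∀ x, P x = ∑ i ∈ s, e i • (comp Ω e P i).baseChange Ω x := by
  classical
  let b := finBasis k V
  choose s hs using fun j => coo_sum Ω e (P ((1 : Ω) ⊗ₜ[k] b j))
  let t : Finset I := Finset.univ.biUnion s
  refine ⟨t, fun x => ?_⟩
  have h : P = ∑ i ∈ t, e i • (comp Ω e P i).baseChange Ω := by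
    refine (b.baseChange Ω).ext fun j => ?_
    rw [Basis.baseChange_apply, LinearMap.sum_apply]
    conv_lhs => rw [hs j t (Finset.subset_biUnion_of_mem s (Finset.mem_univ j))]
    refine Finset.sum_congr rfl fun i _ => ?_
    rw [LinearMap.smul_apply, LinearMap.baseChange_tmul, comp_apply, smul_tmul', smul_eq_mul,
      mul_one]
  conv_lhs => rw [h]
  rw [LinearMap.sum_apply]
  rfl

variable {Γ : Type} [Group Γ] (ρ : Representation k Γ V)

omit [FiniteDimensional k V] in
/-- The components of an operator commuting with the group commute with the group. -/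
theorem comp_comm {I : Type} (e : Basis I k Ω) (P : End Ω (Ω ⊗[k] V)) (g : Γ)
    (hP : ∀ x, P (bcr ρ Ω g x) = bcr ρ Ω g (P x)) (i : I) :
    comp Ω e P i * ρ g = ρ g * comp Ω e P i := by
  ext v
  rw [End.mul_apply, End.mul_apply, comp_apply, comp_apply]
  have h1 := hP ((1 : Ω) ⊗ₜ[k] v)
  rw [bcr_tmul] at h1
  rw [h1]
  exact coo_map Ω e i (ρ g) _

theorem aeval_eigen {Y : Type} [AddCommGroup Y] [Module k Y] (δ : End k Y) (p : k[X]) (z : Ω)
    {x : Ω ⊗[k] Y} (hx : δ.baseChange Ω x = z • x) :
    (aeval δ p).baseChange Ω x = aeval z p • x := by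
  induction p using Polynomial.induction_on' with
  | add p q hp hq => rw [map_add, LinearMap.baseChange_add, LinearMap.add_apply, hp, hq, map_add,
      add_smul]
  | monomial n a =>
    have h1 : ∀ n : ℕ, (δ ^ n).baseChange Ω x = z ^ n • x := by
      intro n
      induction n with
      | zero =>
        rw [pow_zero, pow_zero, one_smul]
        have : (1 : End k Y).baseChange Ω = LinearMap.id := LinearMap.baseChange_id
        rw [this]
        rfl
      | succ n ih =>
        have h2 : (δ ^ (n + 1)).baseChange Ω = (δ ^ n).baseChange Ω ∘ₗ δ.baseChange Ω := by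
          rw [← LinearMap.baseChange_comp, pow_succ]
          rfl
        rw [h2, LinearMap.comp_apply, hx, map_smul, ih, smul_smul, pow_succ']
    rw [aeval_monomial, aeval_monomial, ← Algebra.smul_def, ← Algebra.smul_def,
      LinearMap.baseChange_smul, LinearMap.smul_apply, h1, smul_assoc]

/-- If the operators commuting with a subgroup are polynomials in `δ` then the operators on the
extended space commuting with it are scalars on the eigenspaces of `δ`. -/
theorem comm_scalar {δ : End k V} {Δ : Subgroup Γ}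
    (hend : ∀ P : End k V, (∀ s ∈ Δ, P * ρ s = ρ s * P) → P ∈ Algebra.adjoin k {δ})
    (P : End Ω (Ω ⊗[k] V)) (hP : ∀ s ∈ Δ, ∀ x, P (bcr ρ Ω s x) = bcr ρ Ω s (P x)) (z : Ω) :
    ∃ c : Ω, ∀ x ∈ End.eigenspace (δ.baseChange Ω) z, P x = c • x := by
  classical
  let e := Basis.ofVectorSpace k Ω
  obtain ⟨s, hs⟩ := comp_sum Ω e P
  have h1 : ∀ i, ∃ p : k[X], comp Ω e P i = aeval δ p := by
    intro i
    have h2 := hend (comp Ω e P i) fun g hg => comp_comm Ω ρ e P g (hP g hg) i
    rw [Algebra.adjoin_singleton_eq_range_aeval] at h2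
    obtain ⟨p, hp⟩ := h2
    exact ⟨p, hp.symm⟩
  choose p hp using h1
  refine ⟨∑ i ∈ s, e i * aeval z (p i), fun x hx => ?_⟩
  rw [hs, Finset.sum_smul]
  refine Finset.sum_congr rfl fun i _ => ?_
  rw [hp, aeval_eigen Ω δ (p i) z (End.mem_eigenspace_iff.1 hx), smul_smul]

end commutant

end

end Pool.Agent.Helper8K9.CR
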