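import Mathlib
import Pool.Agent.Helper8K9.CR.Lin

/-!
# The eigenspaces of an automorphism of finite order
-/

set_option autoImplicit false
set_option linter.unusedSectionVars false

namespace Pool.Agent.Helper8K9.CR

open Module TensorProduct Polynomial
open Pool.Agent.H204R3.SP Pool.Agent.H204R3.GP Pool.Agent.W522.U Pool.Agent.TH118.CR

noncomputable section

variable {k V : Type} [Field k] [CharZero k] [AddCommGroup V] [Module k V]
  [FiniteDimensional k V] (Ω : Type) [Field Ω] [CharZero Ω] [Algebra k Ω]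
  {Γ : Type} [Group Γ] (ρ : Representation k Γ V) (δ : End k V) {m : ℕ} [NeZero m]

theorem smul_one_eq {K X : Type} [Field K] [AddCommGroup X] [Module K X] {c : K} {w : X}
    (hw0 : w ≠ 0) (h1 : w = c • w) : c = 1 := by
  have h2 : (c - 1) • w = 0 := by rw [sub_smul, ← h1, one_smul, sub_self]
  exact sub_eq_zero.1 ((smul_eq_zero.1 h2).resolve_right hw0)

/-- The eigenspaces of `δ`. -/
def Eg (z : Ω) : Submodule Ω (Ω ⊗[k] V) := End.eigenspace (δ.baseChange Ω) z

theorem mem_Eg {z : Ω} {x : Ω ⊗[k] V} : x ∈ Eg Ω δ z ↔ δ.baseChange Ω x = z • x :=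
  End.mem_eigenspace_iff

/-- The root with a given exponent. -/
def zt (z0 : Ω) (t : (ZMod m)ˣ) : Ω := z0 ^ (t : ZMod m).val

variable {Ω} {z0 : Ω} (hz : IsPrimitiveRoot z0 m)

include hz in
theorem zt_prim (t : (ZMod m)ˣ) : IsPrimitiveRoot (zt Ω z0 t) m :=
  hz.pow_of_coprime _ (ZMod.val_coe_unit_coprime t)

include hz in
theorem zt_mul (s t : (ZMod m)ˣ) : zt Ω z0 (s * t) = (zt Ω z0 s) ^ (t : ZMod m).val := by
  unfold zt
  rw [← pow_mul, Units.val_mul, ZMod.val_mul]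
  rw [← pow_mod_orderOf z0 ((s : ZMod m).val * (t : ZMod m).val), ← hz.eq_orderOf]

include hz in
theorem zt_inj {s t : (ZMod m)ˣ} (h : zt Ω z0 s = zt Ω z0 t) : s = t := by
  have h1 := hz.pow_inj (ZMod.val_lt _) (ZMod.val_lt _) h
  exact Units.ext (ZMod.val_injective m h1)

include hz in
theorem zt_pow_inj {a : ℕ} (ha : a.Coprime m) {s t : (ZMod m)ˣ}
    (h : zt Ω z0 s ^ a = zt Ω z0 t ^ a) : s = t := by
  let u : (ZMod m)ˣ := ZMod.unitOfCoprime a ha
  have h2 : ∀ r : (ZMod m)ˣ, zt Ω z0 (r * u) = zt Ω z0 r ^ a := by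
    intro r
    rw [zt_mul hz]
    have h3 : ((u : ZMod m)).val = a % m := by
      rw [ZMod.coe_unitOfCoprime, ZMod.val_natCast]
    rw [h3]
    conv_rhs => rw [← pow_mod_orderOf, ← (zt_prim hz r).eq_orderOf]
  have h3 : zt Ω z0 (s * u) = zt Ω z0 (t * u) := by rw [h2, h2, h]
  exact mul_right_cancel (zt_inj hz h3)

include hz in
theorem exists_zt {z : Ω} (h : IsPrimitiveRoot z m) : ∃ t : (ZMod m)ˣ, zt Ω z0 t = z := by
  obtain ⟨i, hi, hc, h1⟩ := (hz.isPrimitiveRoot_iff).1 h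
  refine ⟨ZMod.unitOfCoprime i hc, ?_⟩
  unfold zt
  rw [ZMod.coe_unitOfCoprime, ZMod.val_natCast, Nat.mod_eq_of_lt hi, h1]

theorem aeval_baseChange (p : k[X]) :
    aeval (δ.baseChange Ω) (p.map (algebraMap k Ω)) = (aeval δ p).baseChange Ω := by
  refine LinearMap.ext fun x => ?_
  induction x with
  | zero => simp only [map_zero]
  | add x y hx hy => simp only [map_add, hx, hy]
  | tmul a v =>
    induction p using Polynomial.induction_on' with
    | add p q hp hq =>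
      rw [Polynomial.map_add, map_add, LinearMap.add_apply, hp, hq, map_add,
        LinearMap.baseChange_add, LinearMap.add_apply]
    | monomial n c =>
      have h1 : ∀ n : ℕ, ((δ.baseChange Ω) ^ n) (a ⊗ₜ[k] v) = a ⊗ₜ[k] (δ ^ n) v := by
        intro n
        induction n with
        | zero => rfl
        | succ n ih =>
          rw [pow_succ', End.mul_apply, ih, LinearMap.baseChange_tmul, pow_succ', End.mul_apply]
      rw [Polynomial.map_monomial, aeval_monomial, ← Algebra.smul_def, LinearMap.smul_apply, h1,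
        LinearMap.baseChange_tmul, aeval_monomial, ← Algebra.smul_def, LinearMap.smul_apply,
        tmul_smul, algebraMap_smul]

include hz in
/-- The space is the sum of the eigenspaces of `δ`. -/
theorem iSup_Eg (hδ : aeval δ (cyclotomic m k) = 0) :
    ⨆ t : (ZMod m)ˣ, Eg Ω δ (zt Ω z0 t) = ⊤ := by
  classical
  rw [eq_top_iff]
  intro x _
  have h1 : aeval (δ.baseChange Ω) (∏ z ∈ primitiveRoots m Ω, (Polynomial.X - C z)) x = 0 := by
    rw [← cyclotomic_eq_prod_X_sub_primitiveRoots hz, ← map_cyclotomic m (algebraMap k Ω),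
      aeval_baseChange, hδ, LinearMap.baseChange_zero, LinearMap.zero_apply]
  have h2 := mem_iSup_eigenspace _ _ _ h1
  refine (iSup₂_le fun z hz' => ?_ : (⨆ z ∈ primitiveRoots m Ω,
    End.eigenspace (δ.baseChange Ω) z) ≤ _) h2
  obtain ⟨t, ht⟩ := exists_zt hz ((mem_primitiveRoots (NeZero.pos m)).1 hz')
  rw [← ht]
  exact le_iSup (fun t : (ZMod m)ˣ => Eg Ω δ (zt Ω z0 t)) t

variable {ρ δ} in
/-- The eigenspaces are stable. -/
theorem Eg_stable (hc : ∀ s, ρ s * δ = δ * ρ s) (z : Ω) (s : Γ) :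
    ∀ u ∈ Eg Ω δ z, bcr ρ Ω s u ∈ Eg Ω δ z := by
  intro u hu
  rw [mem_Eg] at hu ⊢
  have h1 : δ.baseChange Ω (bcr ρ Ω s u) = bcr ρ Ω s (δ.baseChange Ω u) := by
    change (δ.baseChange Ω ∘ₗ (ρ s).baseChange Ω) u = ((ρ s).baseChange Ω ∘ₗ δ.baseChange Ω) u
    rw [← LinearMap.baseChange_comp, ← LinearMap.baseChange_comp]
    congr 2
    exact (hc s).symm
  rw [h1, hu, map_smul]

variable {ρ δ} in
/-- The eigenspaces are strongly irreducible. -/
theorem Eg_SI (hss : HasProj (bcr ρ Ω)) (hc : ∀ s, ρ s * δ = δ * ρ s)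
    (hend : ∀ Δ : Subgroup Γ, Δ.FiniteIndex → ∀ P : End k V, (∀ s ∈ Δ, P * ρ s = ρ s * P) →
      P ∈ Algebra.adjoin k {δ}) {z : Ω} (hne : Eg Ω δ z ≠ ⊥) : SI (bcr ρ Ω) (Eg Ω δ z) := by
  refine ⟨hne, ⟨⊤, inferInstance, fun g _ => Eg_stable hc z g⟩, fun W hW hpot => ?_⟩
  obtain ⟨Δ, hΔ, hst⟩ := hpot
  obtain ⟨P, hP1, hP2, hP3⟩ := hss Δ hΔ W hst
  obtain ⟨c, hcx⟩ := comm_scalar Ω ρ (hend Δ hΔ) P (fun s hs x => hP3 s hs x) z
  by_cases h0 : W = ⊥
  · exact Or.inl h0
  · right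
    obtain ⟨w, hw, hw0⟩ := Submodule.exists_mem_ne_zero_of_ne_bot h0
    have h1 := hcx w (hW hw)
    rw [hP2 w hw] at h1
    have hc1 : c = 1 := smul_one_eq hw0 h1
    refine le_antisymm hW fun u hu => ?_
    have h2 := hcx u hu
    rw [hc1, one_smul] at h2
    rw [← h2]
    exact hP1 u

end

end Pool.Agent.Helper8K9.CR
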