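import Mathlib
import Pool.Agent.Helper8K9.CR.Eig

/-!
# Complex reflections
-/

set_option autoImplicit false
set_option linter.unusedSectionVars false

namespace Pool.Agent.Helper8K9.CR

open Module TensorProduct Polynomial
open Pool.Agent.H204R3.SP Pool.Agent.H204R3.GP Pool.Agent.W522.U Pool.Agent.TH118.CR

noncomputable section

variable {k V : Type} [Field k] [CharZero k] [AddCommGroup V] [Module k V]
  [FiniteDimensional k V] (Ω : Type) [Field Ω] [CharZero Ω] [Algebra k Ω]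
  {Γ : Type} [Group Γ] (ρ : Representation k Γ V) (δ : End k V) {m : ℕ} [NeZero m]

/-- The operator `g` is a complex reflection over `k(δ)`: it maps `v` to the sum of `v` and an element
of `k(δ) d`, where `d` generates a free module of rank one over `k[T] / Φ_m(T)`, `T` acting as `δ`,
and `d` to `± δ ^ a d`, `a` prime to `m`. -/
def IsReflection (m : ℕ) (δ g : End k V) : Prop :=
  ∃ (d : V) (a : ℕ) (s : k), a.Coprime m ∧ (s = 1 ∨ s = -1) ∧
    LinearIndependent k (fun i : Fin (Nat.totient m) => (δ ^ (i : ℕ)) d) ∧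
    (∀ v, g v - v ∈ Submodule.span k (Set.range fun i : Fin (Nat.totient m) => (δ ^ (i : ℕ)) d)) ∧
    g d = s • (δ ^ a) d

variable {Ω} {z0 : Ω} (hz : IsPrimitiveRoot z0 m)

/-- The product of the other linear factors. -/
def ez (Ω : Type) [Field Ω] (m : ℕ) (z : Ω) : (Polynomial Ω) := by
  classical
  exact ∏ b ∈ (primitiveRoots m Ω).erase z, (Polynomial.X - C b)

theorem ez_mul {z : Ω} (hz : IsPrimitiveRoot z m) :
    (Polynomial.X - C z) * ez Ω m z = (cyclotomic m k).map (algebraMap k Ω) := by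
  classical
  rw [map_cyclotomic, cyclotomic_eq_prod_X_sub_primitiveRoots hz]
  exact Finset.mul_prod_erase _ (fun b => Polynomial.X - C b)
    ((mem_primitiveRoots (NeZero.pos m)).2 hz)

theorem ez_natDegree {z : Ω} (hz : IsPrimitiveRoot z m) :
    (ez Ω m z).natDegree + 1 = Nat.totient m := by
  classical
  have h1 : z ∈ primitiveRoots m Ω := (mem_primitiveRoots (NeZero.pos m)).2 hz
  unfold ez
  rw [natDegree_prod_of_monic _ _ fun b _ => monic_X_sub_C b]
  simp only [natDegree_X_sub_C, Finset.sum_const, smul_eq_mul, mul_one]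
  rw [Finset.card_erase_of_mem h1, hz.card_primitiveRoots]
  have h2 : 0 < Nat.totient m := Nat.totient_pos.2 (NeZero.pos m)
  omega

theorem ez_monic (z : Ω) : (ez Ω m z).Monic := by
  classical
  exact monic_prod_of_monic _ _ fun b _ => monic_X_sub_C b

theorem ez_eval {z : Ω} : (ez Ω m z).eval z ≠ 0 := by
  classical
  unfold ez
  rw [eval_prod, Finset.prod_ne_zero_iff]
  intro b hb
  rw [eval_sub, eval_X, eval_C, sub_ne_zero]
  exact fun h => (Finset.ne_of_mem_erase hb) h.symm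

variable {ρ δ}

theorem ez_mem (hδ : aeval δ (cyclotomic m k) = 0) {z : Ω} (hz : IsPrimitiveRoot z m)
    (x : Ω ⊗[k] V) : aeval (δ.baseChange Ω) (ez Ω m z) x ∈ Eg Ω δ z := by
  rw [mem_Eg]
  have h1 : aeval (δ.baseChange Ω) ((Polynomial.X - C z) * ez Ω m z) x = 0 := by
    rw [ez_mul (k := k) hz, aeval_baseChange, hδ, LinearMap.baseChange_zero, LinearMap.zero_apply]
  rw [map_mul, End.mul_apply, map_sub, aeval_X, aeval_C] at h1
  exact sub_eq_zero.1 h1

theorem aeval_on {z : Ω} (p : (Polynomial Ω)) {x : Ω ⊗[k] V} (hx : x ∈ Eg Ω δ z) :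
    aeval (δ.baseChange Ω) p x = p.eval z • x := by
  rw [mem_Eg] at hx
  exact End.aeval_apply_of_mem_apply_eq_smul hx

theorem smul_sub_self {K X : Type} [Field K] [AddCommGroup X] [Module K X] (c : K) (x : X) :
    c • x - x = (c - 1) • x := by
  rw [sub_smul, one_smul]

/-- Independent vectors remain independent over the extension. -/
theorem indep_ext {I : Type} [Fintype I] {w : I → V} (hw : LinearIndependent k w) (c : I → Ω)
    (h : ∑ i, c i • ((1 : Ω) ⊗ₜ[k] w i) = 0) : ∀ i, c i = 0 := by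
  classical
  let e := Basis.ofVectorSpace k Ω
  intro i
  rw [← e.repr.map_eq_zero_iff]
  ext j
  have h1 := congrArg (coo Ω e j) h
  rw [map_sum, map_zero] at h1
  have h2 : ∀ i, coo Ω e j (c i • ((1 : Ω) ⊗ₜ[k] w i)) = e.repr (c i) j • w i := by
    intro i
    rw [smul_tmul', smul_eq_mul, mul_one, coo_tmul]
    rfl
  rw [Finset.sum_congr rfl fun i _ => h2 i] at h1
  exact Fintype.linearIndependent_iff.1 hw (fun i => e.repr (c i) j) h1 i

theorem exists_dual_one {K X : Type} [Field K] [AddCommGroup X] [Module K X] {v : X}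
    (hv : v ≠ 0) : ∃ f : X →ₗ[K] K, f v = 1 := by
  have h1 : ¬ ∀ φ : Module.Dual K X, φ v = 0 := fun h =>
    hv ((Module.forall_dual_apply_eq_zero_iff K v).1 h)
  push Not at h1
  obtain ⟨f, hf⟩ := h1
  exact ⟨(f v)⁻¹ • f, by rw [LinearMap.smul_apply, smul_eq_mul, inv_mul_cancel₀ hf]⟩

theorem dl_pow (i : ℕ) (a : Ω) (v : V) :
    ((δ.baseChange Ω) ^ i) (a ⊗ₜ[k] v) = a ⊗ₜ[k] (δ ^ i) v := by
  induction i with
  | zero => rfl
  | succ n ih =>
    rw [pow_succ', End.mul_apply, ih, LinearMap.baseChange_tmul, pow_succ', End.mul_apply]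

theorem Eg_pow {z : Ω} {x : Ω ⊗[k] V} (hx : x ∈ Eg Ω δ z) (i : ℕ) :
    ((δ.baseChange Ω) ^ i) x = z ^ i • x := by
  have h := aeval_on (Polynomial.X ^ i) hx
  rwa [map_pow, aeval_X, eval_pow, eval_X] at h

theorem dz_ne {z : Ω} (hz : IsPrimitiveRoot z m) {d : V}
    (hli : LinearIndependent k (fun i : Fin (Nat.totient m) => (δ ^ (i : ℕ)) d)) :
    aeval (δ.baseChange Ω) (ez Ω m z) ((1 : Ω) ⊗ₜ[k] d) ≠ 0 := by
  intro h
  have hdeg := ez_natDegree hz
  have h1 : ∑ i : Fin (Nat.totient m), (ez Ω m z).coeff i • ((1 : Ω) ⊗ₜ[k] (δ ^ (i : ℕ)) d) = 0 := by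
    rw [← h, aeval_eq_sum_range, hdeg, Finset.sum_range, LinearMap.sum_apply]
    refine Finset.sum_congr rfl fun i _ => ?_
    rw [LinearMap.smul_apply, dl_pow]
  have h2 := indep_ext hli _ h1 ⟨(ez Ω m z).natDegree, by omega⟩
  have h3 := ez_monic (m := m) z
  rw [Monic, leadingCoeff] at h3
  rw [h3] at h2
  exact one_ne_zero h2

theorem diff_mem {g : End k V} {S : Submodule k V} (h : ∀ v, g v - v ∈ S) (x : Ω ⊗[k] V) :
    g.baseChange Ω x - x ∈ Submodule.span Ω ((fun v => (1 : Ω) ⊗ₜ[k] v) '' (S : Set V)) := by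
  induction x with
  | zero =>
    rw [map_zero, sub_zero]
    exact Submodule.zero_mem _
  | add x y hx hy =>
    have h1 : g.baseChange Ω (x + y) - (x + y) =
        (g.baseChange Ω x - x) + (g.baseChange Ω y - y) := by
      rw [map_add]
      abel
    rw [h1]
    exact Submodule.add_mem _ hx hy
  | tmul a v =>
    have h1 : g.baseChange Ω (a ⊗ₜ[k] v) - a ⊗ₜ[k] v = a • ((1 : Ω) ⊗ₜ[k] (g v - v)) := by
      rw [LinearMap.baseChange_tmul, smul_tmul', smul_eq_mul, mul_one, tmul_sub]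
    rw [h1]
    exact Submodule.smul_mem _ _ (Submodule.subset_span ⟨_, h v, rfl⟩)

/-- The values of `± z ^ a`. -/
theorem root_ne (hm : 3 ≤ m) {z : Ω} (hz : IsPrimitiveRoot z m) {a : ℕ} (ha : a.Coprime m) {s : Ω}
    (hs : s = 1 ∨ s = -1) : s * z ^ a ≠ 1 ∧ s * z ^ a ≠ -1 := by
  have h2 : (s * z ^ a) ^ 2 ≠ 1 := by
    intro h
    have h3 : s ^ 2 = 1 := by rcases hs with rfl | rfl <;> norm_num
    rw [mul_pow, h3, one_mul, ← pow_mul, hz.pow_eq_one_iff_dvd] at h
    have h4 : m ∣ 2 := ha.symm.dvd_of_dvd_mul_left h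
    exact absurd (Nat.le_of_dvd two_pos h4) (by omega)
  constructor
  · intro h
    rw [h] at h2
    exact h2 (one_pow 2)
  · intro h
    rw [h] at h2
    exact h2 (by norm_num)

/-- A complex reflection over `k(δ)` acts on all eigenspaces of `δ` as a complex reflection. -/
theorem reflects (hm : 3 ≤ m) (hδ : aeval δ (cyclotomic m k) = 0)
    (hc : ∀ s, ρ s * δ = δ * ρ s) {γ : Γ} (hγ : IsReflection m δ (ρ γ)) :
    ∃ (a : ℕ) (s : Ω), a.Coprime m ∧ (s = 1 ∨ s = -1) ∧
      ∀ z : Ω, IsPrimitiveRoot z m → ∃ (d : Ω ⊗[k] V) (φ : Ω ⊗[k] V →ₗ[Ω] Ω), d ∈ Eg Ω δ z ∧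
        φ d = 1 ∧ ∀ u ∈ Eg Ω δ z, bcr ρ Ω γ u = (1 : Ω) • (u + ((s * z ^ a - 1) * φ u) • d) := by
  classical
  obtain ⟨d, a, s, ha, hs, hli, hsp, hgd⟩ := hγ
  have hs' : (algebraMap k Ω s) = 1 ∨ (algebraMap k Ω s) = -1 := by
    rcases hs with rfl | rfl
    · left; rw [map_one]
    · right; rw [map_neg, map_one]
  refine ⟨a, algebraMap k Ω s, ha, hs', fun z hz => ?_⟩
  set ε : Ω := algebraMap k Ω s * z ^ a with hε
  have hε1 : ε - 1 ≠ 0 := sub_ne_zero.2 (root_ne hm hz ha hs').1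
  set D : Ω ⊗[k] V := (1 : Ω) ⊗ₜ[k] d with hD
  set dz : Ω ⊗[k] V := aeval (δ.baseChange Ω) (ez Ω m z) D with hdz
  have hdm : dz ∈ Eg Ω δ z := ez_mem hδ hz D
  have hd0 : dz ≠ 0 := dz_ne hz hli
  have hcomm : ∀ p : Polynomial Ω, ∀ x, (ρ γ).baseChange Ω (aeval (δ.baseChange Ω) p x) =
      aeval (δ.baseChange Ω) p ((ρ γ).baseChange Ω x) := by
    intro p x
    have h1 : Commute ((ρ γ).baseChange Ω) (δ.baseChange Ω) := by
      change (ρ γ).baseChange Ω ∘ₗ δ.baseChange Ω = δ.baseChange Ω ∘ₗ (ρ γ).baseChange Ω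
      rw [← LinearMap.baseChange_comp, ← LinearMap.baseChange_comp]
      congr 1
      exact hc γ
    have h2 : Commute ((ρ γ).baseChange Ω) (aeval (δ.baseChange Ω) p) := by
      induction p using Polynomial.induction_on' with
      | add p q hp hq =>
        rw [map_add]
        exact hp.add_right hq
      | monomial n c =>
        rw [aeval_monomial]
        have h5 : Commute ((ρ γ).baseChange Ω) (algebraMap Ω (End Ω (Ω ⊗[k] V)) c) :=
          (Algebra.commutes c ((ρ γ).baseChange Ω)).symm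
        exact h5.mul_right (h1.pow_right n)
    exact congrArg (fun f : End Ω (Ω ⊗[k] V) => f x) h2.eq
  -- the eigenvector
  have hgdz : (ρ γ).baseChange Ω dz = ε • dz := by
    rw [hdz, hcomm]
    have h1 : (ρ γ).baseChange Ω D = algebraMap k Ω s • ((δ.baseChange Ω) ^ a) D := by
      rw [hD, LinearMap.baseChange_tmul, hgd, dl_pow, algebraMap_smul, tmul_smul]
    rw [h1, map_smul]
    have h2 : aeval (δ.baseChange Ω) (ez Ω m z) (((δ.baseChange Ω) ^ a) D) =
        ((δ.baseChange Ω) ^ a) dz := by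
      rw [hdz, ← End.mul_apply, ← End.mul_apply]
      congr 1
      have h3 := (Commute.refl (δ.baseChange Ω))
      have h4 : Commute (aeval (δ.baseChange Ω) (ez Ω m z)) (aeval (δ.baseChange Ω)
        (Polynomial.X ^ a : Polynomial Ω)) := by
        change _ * _ = _ * _
        rw [← map_mul, ← map_mul, mul_comm]
      rw [map_pow, aeval_X] at h4
      exact h4.eq
    rw [h2, Eg_pow hdm, hε, mul_smul]
  -- differences
  have hdiff : ∀ u ∈ Eg Ω δ z, ∃ c : Ω, (ρ γ).baseChange Ω u - u = c • dz := by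
    intro u hu
    have h1 : ∀ x ∈ Submodule.span Ω ((fun v => (1 : Ω) ⊗ₜ[k] v) ''
        (Submodule.span k (Set.range fun i : Fin (Nat.totient m) => (δ ^ (i : ℕ)) d) : Set V)),
        ∃ c : Ω, aeval (δ.baseChange Ω) (ez Ω m z) x = c • dz := by
      intro x hx
      induction hx using Submodule.span_induction with
      | mem x hx =>
        obtain ⟨v, hv, rfl⟩ := hx
        change v ∈ Submodule.span k _ at hv
        induction hv using Submodule.span_induction with
        | mem v hv =>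
          obtain ⟨i, rfl⟩ := hv
          refine ⟨z ^ (i : ℕ), ?_⟩
          change aeval (δ.baseChange Ω) (ez Ω m z) ((1 : Ω) ⊗ₜ[k] (δ ^ (i : ℕ)) d) = _
          rw [← dl_pow, ← Eg_pow hdm, hdz, ← End.mul_apply, ← End.mul_apply]
          congr 1
          have h4 : Commute (aeval (δ.baseChange Ω) (ez Ω m z)) (aeval (δ.baseChange Ω)
            (Polynomial.X ^ (i : ℕ) : Polynomial Ω)) := by
            change _ * _ = _ * _
            rw [← map_mul, ← map_mul, mul_comm]
          rw [map_pow, aeval_X] at h4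
          exact h4.eq
        | zero => exact ⟨0, by simp⟩
        | add v w _ _ hv hw =>
          obtain ⟨c, hc⟩ := hv
          obtain ⟨c', hc'⟩ := hw
          refine ⟨c + c', ?_⟩
          change aeval (δ.baseChange Ω) (ez Ω m z) ((1 : Ω) ⊗ₜ[k] (v + w)) = _
          rw [tmul_add, map_add]
          rw [show aeval (δ.baseChange Ω) (ez Ω m z) ((1 : Ω) ⊗ₜ[k] v) = c • dz from hc,
            show aeval (δ.baseChange Ω) (ez Ω m z) ((1 : Ω) ⊗ₜ[k] w) = c' • dz from hc', add_smul]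
        | smul b v _ hv =>
          obtain ⟨c, hc⟩ := hv
          refine ⟨algebraMap k Ω b * c, ?_⟩
          change aeval (δ.baseChange Ω) (ez Ω m z) ((1 : Ω) ⊗ₜ[k] (b • v)) = _
          rw [tmul_smul, ← algebraMap_smul Ω b, map_smul]
          rw [show aeval (δ.baseChange Ω) (ez Ω m z) ((1 : Ω) ⊗ₜ[k] v) = c • dz from hc, mul_smul]
      | zero => exact ⟨0, by simp⟩
      | add x y _ _ hx hy =>
        obtain ⟨c, hc⟩ := hx
        obtain ⟨c', hc'⟩ := hy
        exact ⟨c + c', by rw [map_add, hc, hc', add_smul]⟩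
      | smul b x _ hx =>
        obtain ⟨c, hc⟩ := hx
        exact ⟨b * c, by rw [map_smul, hc, mul_smul]⟩
    obtain ⟨c, hcx⟩ := h1 _ (diff_mem (Ω := Ω) hsp u)
    have hst : (ρ γ).baseChange Ω u ∈ Eg Ω δ z := Eg_stable hc z γ u hu
    have h2 := aeval_on (ez Ω m z) ((Eg Ω δ z).sub_mem hst hu)
    rw [hcx] at h2
    refine ⟨((ez Ω m z).eval z)⁻¹ * c, ?_⟩
    rw [mul_smul, h2, smul_smul, inv_mul_cancel₀ ez_eval, one_smul]
  obtain ⟨ψ, hψ⟩ := exists_dual_one (K := Ω) hd0
  refine ⟨dz, (ε - 1)⁻¹ • ψ.comp ((ρ γ).baseChange Ω - 1), hdm, ?_, fun u hu => ?_⟩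
  · rw [LinearMap.smul_apply, LinearMap.comp_apply, LinearMap.sub_apply, End.one_apply, hgdz]
    rw [smul_sub_self ε dz, map_smul, hψ, smul_eq_mul, smul_eq_mul, mul_one, inv_mul_cancel₀ hε1]
  · obtain ⟨c, hcx⟩ := hdiff u hu
    rw [LinearMap.smul_apply, LinearMap.comp_apply, LinearMap.sub_apply, End.one_apply, hcx,
      map_smul, hψ, smul_eq_mul, smul_eq_mul, mul_one, ← mul_assoc, mul_inv_cancel₀ hε1, one_mul,
      one_smul, ← hcx]
    change (ρ γ).baseChange Ω u = _
    abel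

end

end Pool.Agent.Helper8K9.CR
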