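import Mathlib
import Pool.Agent.Helper8K9.CR.Ref
import Pool.Agent.Y126.Glue

/-!
# Tate classes on abelian varieties with multiplication by roots of unity and a complex reflection
-/

set_option autoImplicit false
set_option linter.unusedSectionVars false

namespace Pool.Agent.Helper8K9.CR

open Module TensorProduct Polynomial
open Pool.Agent.H204R3.SP Pool.Agent.H204R3.GP Pool.Agent.W522.U Pool.Agent.TH118.CR
open Pool.Agent.TH118.WC

noncomputable section

/-- A function on the residues prime to `m` is nondegenerate if no nonzero odd function is orthogonal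
to all its translates. -/
def Nondegenerate {m : ℕ} [NeZero m] (n : (ZMod m)ˣ → ℤ) : Prop :=
  ∀ κ : (ZMod m)ˣ → ℤ, (∀ t, κ (-t) = -κ t) → (∀ t, ∑ s, κ s * n (s * t) = 0) → ∀ t, κ t = 0

/-- The characteristic polynomial of the restriction of an operator to a stable subspace. -/
def charpolyOn {K X : Type} [Field K] [AddCommGroup X] [Module K X] [FiniteDimensional K X]
    (f : End K X) (U : Submodule K X) (h : ∀ u ∈ U, f u ∈ U) : Polynomial K :=
  (f.restrict h).charpoly

section galois

variable {E : Type} [Field E] [CharZero E] {m : ℕ} [NeZero m] [IsCyclotomicExtension {m} ℚ E]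
  {ζ : E}

theorem exists_conj (hζ : IsPrimitiveRoot ζ m) (t : (ZMod m)ˣ) :
    ∃ σ : E ≃+* E, σ ζ = ζ ^ (t : ZMod m).val := by
  have hirr : Irreducible (cyclotomic m ℚ) := cyclotomic.irreducible_rat (NeZero.pos m)
  have hζt : IsPrimitiveRoot (ζ ^ (t : ZMod m).val) m :=
    hζ.pow_of_coprime _ (ZMod.val_coe_unit_coprime t)
  let f1 := IsCyclotomicExtension.fromZetaAut hζ hirr
  let f2 := IsCyclotomicExtension.fromZetaAut hζt hirr
  have h1 : f1 (IsCyclotomicExtension.zeta m ℚ E) = ζ :=
    IsCyclotomicExtension.fromZetaAut_spec hζ hirr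
  have h2 : f2 (IsCyclotomicExtension.zeta m ℚ E) = ζ ^ (t : ZMod m).val :=
    IsCyclotomicExtension.fromZetaAut_spec hζt hirr
  refine ⟨(f1.symm.trans f2).toRingEquiv, ?_⟩
  change f2 (f1.symm ζ) = _
  rw [← h2]
  congr 1
  rw [AlgEquiv.symm_apply_eq, h1]

end galois

section frob

variable {k V : Type} [Field k] [CharZero k] [AddCommGroup V] [Module k V]
  [FiniteDimensional k V] (Ω : Type) [Field Ω] [CharZero Ω] [Algebra k Ω]
  {Γ : Type} [Group Γ] (ρ : Representation k Γ V) (χ : Γ →* k) (δ : End k V)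
  {E : Type} [Field E]

/-- `F` is a Frobenius element at a place with residue field with `q` elements, with the polynomial
`Q` over the field `E`. -/
structure IsFrobenius (ζ : E) (Q : Polynomial E) (q : ℕ) (F : Γ) : Prop where
  /-- `q` is the number of elements of the residue field -/
  cyclo : χ F = q
  /-- for every embedding of `E` in `Ω` the polynomial `Q` is the characteristic polynomial of `F`
  on the eigenspace of `δ` for the image of `ζ` -/
  charpoly : ∀ (ι : E →+* Ω) (h : ∀ u ∈ Eg Ω δ (ι ζ), bcr ρ Ω F u ∈ Eg Ω δ (ι ζ)),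
    charpolyOn (bcr ρ Ω F) (Eg Ω δ (ι ζ)) h = Q.map ι

end frob

/-- The valuations (or the values of any other homomorphism to the integers) of the constant
coefficient of `Q` and of its conjugates, divided by the valuation of `q`, are given by `n`. -/
def HasSignature {E : Type} [Field E] {m : ℕ} [NeZero m] (ζ : E) (Q : Polynomial E) (q : ℕ)
    (n : (ZMod m)ˣ → ℤ) : Prop :=
  ∃ (w : Additive Eˣ →+ ℤ) (D x : Eˣ), (D : E) = Q.coeff 0 ∧ (x : E) = (q : E) ∧
    w (Additive.ofMul x) ≠ 0 ∧
    ∀ (t : (ZMod m)ˣ) (σ : E ≃+* E), σ ζ = ζ ^ (t : ZMod m).val →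
      w (Additive.ofMul (Units.map (σ : E →* E) D)) = n t * w (Additive.ofMul x)

section restrict

variable {K X : Type} [Field K] [AddCommGroup X] [Module K X]

theorem restrict_aeval {f : End K X} {U : Submodule K X} (h : ∀ u ∈ U, f u ∈ U) (p : K[X])
    (u : U) : ((aeval (f.restrict h) p u : U) : X) = aeval f p (u : X) := by
  induction p using Polynomial.induction_on' with
  | add p q hp hq =>
    rw [map_add, map_add, LinearMap.add_apply, LinearMap.add_apply, Submodule.coe_add, hp, hq]
  | monomial n a =>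
    have h1 : ∀ n : ℕ, ((((f.restrict h) ^ n) u : U) : X) = (f ^ n) (u : X) := by
      intro n
      induction n with
      | zero => rfl
      | succ n ih =>
        rw [pow_succ', End.mul_apply, pow_succ', End.mul_apply, ← ih]
        rfl
    rw [aeval_monomial, aeval_monomial, ← Algebra.smul_def, ← Algebra.smul_def,
      LinearMap.smul_apply, LinearMap.smul_apply, Submodule.coe_smul, h1]

theorem eigen_of_root [FiniteDimensional K X] {f : End K X} {U : Submodule K X}
    (h : ∀ u ∈ U, f u ∈ U) {a : K} (ha : (f.restrict h).charpoly.IsRoot a) :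
    ∃ u ∈ U, u ≠ 0 ∧ f u = a • u := by
  have h1 := (End.hasEigenvalue_iff_isRoot_charpoly (f.restrict h) a).2 ha
  obtain ⟨u, hu⟩ := h1.exists_hasEigenvector
  refine ⟨u, u.2, fun h2 => hu.2 (Subtype.ext h2), ?_⟩
  have h3 := congrArg (Subtype.val) (End.mem_eigenspace_iff.1 hu.1)
  exact h3

/-- The determinant from the characteristic polynomial. -/
theorem det_of_charpoly [FiniteDimensional K X] {f : End K X} {U : Submodule K X}
    (h : ∀ u ∈ U, f u ∈ U) :
    LinearMap.det (f.restrict h) = (-1) ^ (finrank K U) * (charpolyOn f U h).coeff 0 :=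
  LinearMap.det_eq_sign_charpoly_coeff _

end restrict

section frobenii

variable {K X Γ I : Type} [Field K] [IsAlgClosed K] [AddCommGroup X] [Module K X]
  [FiniteDimensional K X] [Group Γ] {R : Representation K Γ X} {E : I → Submodule K X}

/-- One element with separable characteristic polynomials on the subspaces. -/
theorem hasFrobenii (F : Γ) (h : ∀ i, ∀ u ∈ E i, R F u ∈ E i) (hE : ⨆ i, E i = ⊤)
    (hsep : ∀ i, (charpolyOn (R F) (E i) (h i)).Separable)
    (hq : ∀ i, ∃ a b, (charpolyOn (R F) (E i) (h i)).IsRoot a ∧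
      (charpolyOn (R F) (E i) (h i)).IsRoot b ∧ ∀ k : ℕ, 0 < k → a ^ k ≠ b ^ k) :
    HasFrobenii R E := by
  classical
  have h1 : ⨆ a : K, End.eigenspace (R F) a = ⊤ := by
    rw [eq_top_iff, ← hE]
    refine iSup_le fun i u hu => ?_
    set p := charpolyOn (R F) (E i) (h i) with hp
    have hmon : p.Monic := LinearMap.charpoly_monic _
    have hspl : p.Splits := IsAlgClosed.splits p
    have h2 : p = ∏ a ∈ p.roots.toFinset, (Polynomial.X - C a) := by
      conv_lhs => rw [hspl.eq_prod_roots_of_monic hmon]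
      rw [Finset.prod_multiset_map_count]
      refine Finset.prod_congr rfl fun a ha => ?_
      rw [Multiset.count_eq_one_of_mem (nodup_roots (hsep i)) (Multiset.mem_toFinset.1 ha), pow_one]
    have h3 : aeval (R F) p u = 0 := by
      have h4 : aeval ((R F).restrict (h i)) p = 0 := LinearMap.aeval_self_charpoly _
      have h5 := restrict_aeval (h i) p ⟨u, hu⟩
      rw [h4] at h5
      exact h5.symm
    rw [h2] at h3
    have h4 := mem_iSup_eigenspace (R F) _ u h3
    refine (iSup₂_le fun a _ => ?_ : (⨆ a ∈ p.roots.toFinset, End.eigenspace (R F) a) ≤ _) h4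
    exact le_iSup (fun a => End.eigenspace (R F) a) a
  obtain ⟨b, hb⟩ := exists_eigenbasis (R F) h1
  intro i
  obtain ⟨x, y, hx, hy, hxy⟩ := hq i
  obtain ⟨u, hu, hu0, hu1⟩ := eigen_of_root (h i) hx
  obtain ⟨v, hv, hv0, hv1⟩ := eigen_of_root (h i) hy
  exact ⟨F, b, hb, u, hu, v, hv, hu0, hv0, x, y, hu1, hv1, hxy⟩

end frobenii

section weil


variable {K X Γ : Type} [Field K] [CharZero K] [IsAlgClosed K] [AddCommGroup X] [Module K X]
  [FiniteDimensional K X] [Group Γ] {R : Representation K Γ X} {χ : Γ →* K} {m : ℕ} [NeZero m]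
  {E : (ZMod m)ˣ → Submodule K X}

theorem det_transfer {U U' : Submodule K X} (hU : SI R U) (hU' : SI R U')
    (h : Tw R (fun _ => 1) U U') :
    ∃ Δ : Subgroup Γ, Δ.FiniteIndex ∧ ∀ g ∈ Δ, ∀ (h1 : ∀ u ∈ U, R g u ∈ U)
      (h2 : ∀ u ∈ U', R g u ∈ U'),
      LinearMap.det ((R g).restrict h1) = LinearMap.det ((R g).restrict h2) := by
  obtain ⟨Δ, hΔ, T, hTU, h0, hT⟩ := h
  obtain ⟨e, he⟩ := tw_equiv hU hU' hΔ hTU h0 hT
  refine ⟨Δ, hΔ, fun g hg h1 h2 => ?_⟩
  have h3 : (R g).restrict h2 = (e : U →ₗ[K] U') ∘ₗ ((R g).restrict h1) ∘ₗ (e.symm : U' →ₗ[K] U) := by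
    ext u
    obtain ⟨v, rfl⟩ := e.surjective u
    have h4 := hT g hg v v.2
    rw [one_smul] at h4
    simp only [LinearMap.comp_apply, LinearEquiv.coe_coe, LinearEquiv.symm_apply_apply, he,
      LinearMap.coe_restrict_apply]
    exact h4.symm
  rw [h3, ← LinearMap.det_conj ((R g).restrict h1) e]

theorem det_pow_restrict {U : Submodule K X} (h : ∀ g : Γ, ∀ u ∈ U, R g u ∈ U) (F : Γ) (N : ℕ) :
    LinearMap.det ((R (F ^ N)).restrict (h (F ^ N))) = LinearMap.det ((R F).restrict (h F)) ^ N := by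
  rw [← map_pow]
  congr 1
  ext u
  induction N generalizing u with
  | zero => simp
  | succ n ih =>
    have h1 : (((R F).restrict (h F)) ^ (n + 1)) u =
        ((R F).restrict (h F)) ((((R F).restrict (h F)) ^ n) u) := by
      rw [pow_succ', End.mul_apply]
    rw [h1]
    change R (F ^ (n + 1)) (u : X) = R F ((((R F).restrict (h F)) ^ n) u : U)
    rw [← ih]
    change R (F ^ (n + 1)) (u : X) = R F (R (F ^ n) (u : X))
    rw [← End.mul_apply, ← map_mul, ← pow_succ']

/-- There are no Weil families if the determinants of one element of the group satisfy no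
nontrivial relations. -/
theorem noWeil (hss : HasProj R) (hE : StronglyIrreducibleSum R E)
    (hst : ∀ t, ∀ g : Γ, ∀ u ∈ E t, R g u ∈ E t) (hdual : ∀ t, Du R χ (E t) (E (-t))) (F : Γ)
    (hind : ∀ (N : ℕ), 0 < N → ∀ (c : ℕ) (Q : Type) [Fintype Q] [Nonempty Q] (i : Q → (ZMod m)ˣ),
      (∏ q, LinearMap.det ((R F).restrict (hst (i q) F)) ^ N = χ F ^ (N * c)) →
      ∃ q q', i q' = -i q)
    (Q : Type) [Fintype Q] [Nonempty Q] (L : Q → Submodule K X) : ¬Pool.Agent.Y126.Notions.IsWeilFamily R χ L := by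
  classical
  rintro ⟨hL1, hL2, c, Δ, h, hΔ, -, hdet⟩
  have h1 : ∀ q, SI R (L q) := hL1
  choose i hi using fun q => exists_iso hss hE (h1 q)
  choose D hD hD1 using fun q => det_transfer (h1 q) (hE.1 (i q)) (hi q)
  have hfin : (Δ ⊓ ⨅ q, D q).FiniteIndex := by
    have h2 : (⨅ q, D q).FiniteIndex := Subgroup.finiteIndex_iInf hD
    infer_instance
  obtain ⟨N, hN, -, hFN⟩ := Subgroup.exists_pow_mem_of_index_ne_zero hfin.index_ne_zero F
  have h3 := hdet (F ^ N) hFN.1
  have h4 : ∀ q, LinearMap.det ((R (F ^ N)).restrict (h q (F ^ N) hFN.1)) =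
      LinearMap.det ((R F).restrict (hst (i q) F)) ^ N := by
    intro q
    rw [hD1 q (F ^ N) ((Subgroup.mem_iInf.1 hFN.2) q) _ (hst (i q) (F ^ N)), det_pow_restrict]
  rw [Finset.prod_congr rfl fun q _ => h4 q, map_pow, ← pow_mul] at h3
  obtain ⟨q, q', hqq⟩ := hind N hN c Q i h3
  apply hL2 q q'
  have h5 := hdual (i q)
  rw [← hqq] at h5
  have h6 : Du R χ (L q) (E (i q')) := Tw.du (hE.1 _) (h1 q) (hi q) h5
  exact (Tw.du (hE.1 _) (h1 q') (hi q') h6.symm).symm

end weil

end

end Pool.Agent.Helper8K9.CR
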