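import Mathlib
import Pool.Agent.Helper8K9.CR.Main

/-!
# The main theorem on complex reflections over cyclotomic fields
-/

set_option autoImplicit false
set_option linter.unusedSectionVars false

namespace Pool.Agent.Helper8K9.CR

open Module TensorProduct Polynomial
open Pool.Agent.H204R3.SP Pool.Agent.H204R3.GP Pool.Agent.W522.U Pool.Agent.TH118.CR
open Pool.Agent.TH118.WC

noncomputable section

section comb

variable {m : ℕ} [NeZero m]

/-- A family of residues all of whose translates have the same sum contains a residue and its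
negative. -/
theorem exists_neg {n : (ZMod m)ˣ → ℤ} (hn : Nondegenerate n) (c : ℤ) {Q : Type} [Fintype Q]
    [Nonempty Q] (i : Q → (ZMod m)ˣ) (h : ∀ u, ∑ q, n (i q * u) = c) : ∃ q q', i q' = -i q := by
  classical
  let κ : (ZMod m)ˣ → ℤ := fun s =>
    ((Finset.univ.filter fun q => i q = s).card : ℤ) - ((Finset.univ.filter fun q => i q = -s).card : ℤ)
  have hodd : ∀ t, κ (-t) = -κ t := by
    intro t
    simp only [κ, neg_neg]
    ring
  have h1 : ∀ (f : (ZMod m)ˣ → ℤ) (g : Q → (ZMod m)ˣ),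
      ∑ s, ((Finset.univ.filter fun q => g q = s).card : ℤ) * f s = ∑ q, f (g q) := by
    intro f g
    have h2 : ∀ s, ((Finset.univ.filter fun q => g q = s).card : ℤ) * f s =
        ∑ q, if g q = s then f s else 0 := by
      intro s
      rw [← Finset.sum_filter, Finset.sum_const, nsmul_eq_mul]
    rw [Finset.sum_congr rfl fun s _ => h2 s, Finset.sum_comm]
    refine Finset.sum_congr rfl fun q _ => ?_
    rw [Finset.sum_ite_eq, if_pos (Finset.mem_univ _)]
  have hz : ∀ t, ∑ s, κ s * n (s * t) = 0 := by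
    intro t
    have h3 : ∀ s, κ s * n (s * t) = ((Finset.univ.filter fun q => i q = s).card : ℤ) * n (s * t) -
        ((Finset.univ.filter fun q => -i q = s).card : ℤ) * n (s * t) := by
      intro s
      have h4 : (Finset.univ.filter fun q => i q = -s) = Finset.univ.filter fun q => -i q = s := by
        ext q
        simp only [Finset.mem_filter, Finset.mem_univ, true_and]
        exact ⟨fun h => by rw [h, neg_neg], fun h => by rw [← h, neg_neg]⟩
      simp only [κ]
      rw [h4, sub_mul]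
    rw [Finset.sum_congr rfl fun s _ => h3 s, Finset.sum_sub_distrib,
      h1 (fun s => n (s * t)) i, h1 (fun s => n (s * t)) (fun q => -i q), h t]
    have h5 : ∑ q, n (-i q * t) = c := by
      rw [← h (-t)]
      refine Finset.sum_congr rfl fun q _ => ?_
      rw [neg_mul, mul_neg]
    rw [h5, sub_self]
  have hκ := hn κ hodd hz
  obtain ⟨q⟩ := (inferInstance : Nonempty Q)
  have h6 := hκ (i q)
  by_contra hcon
  push Not at hcon
  have h7 : (Finset.univ.filter fun q' => i q' = -i q) = ∅ := by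
    rw [Finset.filter_eq_empty_iff]
    intro q' _
    exact hcon q q'
  have h8 : 0 < (Finset.univ.filter fun q' => i q' = i q).card :=
    Finset.card_pos.2 ⟨q, by simp⟩
  simp only [κ, h7, Finset.card_empty] at h6
  omega

end comb

section arith

variable {E : Type} [Field E] [CharZero E] {m : ℕ} [NeZero m] [IsCyclotomicExtension {m} ℚ E]
  {ζ : E}

/-- The relation between the determinants, read off with the valuation. -/
theorem sum_of_relation (hζ : IsPrimitiveRoot ζ m) {Q : Polynomial E} {q : ℕ}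
    {n : (ZMod m)ˣ → ℤ} (hsig : HasSignature ζ Q q n)
    (σ : (ZMod m)ˣ → E ≃+* E) (hσ : ∀ t, σ t ζ = ζ ^ (t : ZMod m).val)
    (r N : ℕ) (hN : 0 < N) (c : ℕ) {P : Type} [Fintype P] (i : P → (ZMod m)ˣ)
    (h : ∏ p, ((-1) ^ r * σ (i p) (Q.coeff 0)) ^ N = ((q : E)) ^ (N * c)) :
    ∀ u, ∑ p, n (i p * u) = c := by
  classical
  obtain ⟨w, D, x, hD, hx, hwx, hw⟩ := hsig
  intro u
  have hneg : w (Additive.ofMul (-1 : Eˣ)) = 0 := by
    have h1 : w (Additive.ofMul (-1 : Eˣ)) + w (Additive.ofMul (-1 : Eˣ)) = 0 := by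
      rw [← map_add, ← ofMul_mul]
      norm_num
    omega
  have h1 : ∏ p, ((-1 : Eˣ) ^ r * Units.map ((σ (i p * u) : E ≃+* E) : E →* E) D) ^ N =
      x ^ (N * c) := by
    have h2 := congrArg (σ u) h
    rw [map_prod, map_pow, map_natCast] at h2
    apply Units.ext
    rw [Units.coe_prod, Units.val_pow_eq_pow_val, hx, ← h2]
    refine Finset.prod_congr rfl fun p _ => ?_
    rw [Units.val_pow_eq_pow_val, Units.val_mul, Units.val_pow_eq_pow_val, Units.val_neg,
      Units.val_one, map_pow, map_mul, map_pow, map_neg, map_one, Units.coe_map]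
    congr 2
    rw [← hD]
    -- the automorphisms agree on the generator
    have h3 : ((σ (i p * u) : E ≃+* E) : E →+* E) =
        ((σ u : E ≃+* E) : E →+* E).comp ((σ (i p) : E ≃+* E) : E →+* E) := by
      have h4 : (RingHom.toRatAlgHom ((σ (i p * u) : E ≃+* E) : E →+* E)) =
          RingHom.toRatAlgHom (((σ u : E ≃+* E) : E →+* E).comp
            ((σ (i p) : E ≃+* E) : E →+* E)) := by
        refine (hζ.powerBasis ℚ).algHom_ext ?_
        rw [IsPrimitiveRoot.powerBasis_gen]
        change σ (i p * u) ζ = σ u (σ (i p) ζ)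
        rw [hσ, hσ, map_pow, hσ, ← pow_mul, Units.val_mul, ZMod.val_mul, mul_comm (i p : ZMod m).val]
        conv_rhs => rw [← pow_mod_orderOf]
        rw [← hζ.eq_orderOf]
      exact congrArg (fun f : E →ₐ[ℚ] E => (f : E →+* E)) h4
    exact congrArg (fun f : E →+* E => f (D : E)) h3
  have h5 := congrArg (fun y : Eˣ => w (Additive.ofMul y)) h1
  simp only [ofMul_prod, map_sum, ofMul_pow, map_nsmul, ofMul_mul, map_add, hneg, smul_zero,
    zero_add] at h5
  have h6 : ∀ p, w (Additive.ofMul (Units.map ((σ (i p * u) : E ≃+* E) : E →* E) D)) =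
      n (i p * u) * w (Additive.ofMul x) := fun p => hw _ _ (hσ _)
  simp only [h6, nsmul_eq_mul, Nat.cast_mul] at h5
  rw [← Finset.mul_sum, ← Finset.sum_mul] at h5
  have h7 : (N : ℤ) * w (Additive.ofMul x) ≠ 0 := mul_ne_zero (by exact_mod_cast hN.ne') hwx
  have h8 : ((N : ℤ) * w (Additive.ofMul x)) * ∑ p, n (i p * u) =
      ((N : ℤ) * w (Additive.ofMul x)) * c := by
    linear_combination h5
  exact mul_left_cancel₀ h7 h8

end arith

section general

variable {K X : Type} [Field K] [AddCommGroup X] [Module K X]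

theorem charpolyOn_natDegree [FiniteDimensional K X] {f : Module.End K X} {U : Submodule K X}
    (h : ∀ u ∈ U, f u ∈ U) : (charpolyOn f U h).natDegree = Module.finrank K U :=
  LinearMap.charpoly_natDegree _

theorem bil_smul (B : X →ₗ[K] X →ₗ[K] K) (a b : K) (u v : X) :
    B (a • u) (b • v) = a * b * B u v := by
  rw [map_smul, map_smul, LinearMap.smul_apply, smul_eq_mul, smul_eq_mul]
  ring

end general

section main

/-- The main theorem. -/
theorem generated (ℓ : ℕ) [Fact ℓ.Prime] {m : ℕ} [NeZero m] (hm : 3 ≤ m)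
    {V Γ : Type} [AddCommGroup V] [Module ℚ_[ℓ] V] [FiniteDimensional ℚ_[ℓ] V] [Group Γ]
    (ρ : Representation ℚ_[ℓ] Γ V) (χ : Γ →* ℚ_[ℓ]) (ω : V →ₗ[ℚ_[ℓ]] V →ₗ[ℚ_[ℓ]] ℚ_[ℓ])
    (δ : Module.End ℚ_[ℓ] V) (halt : ∀ v, ω v v = 0) (hnondeg : ∀ u, (∀ v, ω v u = 0) → u = 0)
    (hω : ∀ s u v, ω (ρ s u) (ρ s v) = χ s * ω u v) (hss : FiniteIndexSemisimple ρ)
    (hδ : aeval δ (cyclotomic m ℚ_[ℓ]) = 0) (hc : ∀ s, ρ s * δ = δ * ρ s)
    (hiso : ∀ u v, ω (δ u) (δ v) = ω u v)
    (hend : ∀ Δ : Subgroup Γ, Δ.FiniteIndex → ∀ P : Module.End ℚ_[ℓ] V,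
      (∀ s ∈ Δ, P * ρ s = ρ s * P) → P ∈ Algebra.adjoin ℚ_[ℓ] {δ})
    {γ : Γ} (hγ : IsReflection m δ (ρ γ))
    {E : Type} [Field E] [CharZero E] [IsCyclotomicExtension {m} ℚ E] {ζ : E}
    (hζ : IsPrimitiveRoot ζ m) {Q : Polynomial E} {q : ℕ} {F : Γ}
    (hF : IsFrobenius (AlgebraicClosure ℚ_[ℓ]) ρ χ δ ζ Q q F) (hdeg : 3 ≤ Q.natDegree)
    (hsep : Q.Separable)
    (hroots : ∃ a b : AlgebraicClosure E, aeval a Q = 0 ∧ aeval b Q = 0 ∧
      ∀ k : ℕ, 0 < k → a ^ k ≠ b ^ k)
    {n : (ZMod m)ˣ → ℤ} (hn : Nondegenerate n) (hsig : HasSignature ζ Q q n) :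
    TateGeneratedInDegreeTwo ρ χ := by
  classical
  -- embeddings
  have halgE : Algebra.IsAlgebraic ℚ E :=
    have := IsCyclotomicExtension.finiteDimensional {m} ℚ E
    inferInstance
  have hemb : Nonempty (AlgebraicClosure E →+* AlgebraicClosure ℚ_[ℓ]) := by
    have h1 : Algebra.IsAlgebraic ℚ (AlgebraicClosure E) := Algebra.IsAlgebraic.trans ℚ E _
    exact ⟨(IsAlgClosed.lift : AlgebraicClosure E →ₐ[ℚ] AlgebraicClosure ℚ_[ℓ]).toRingHom⟩
  obtain ⟨J⟩ := hemb
  set Ω := AlgebraicClosure ℚ_[ℓ] with hΩ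
  let ι0 : E →+* Ω := J.comp (algebraMap E (AlgebraicClosure E))
  set z0 : Ω := ι0 ζ with hz0
  have hz : IsPrimitiveRoot z0 m := hζ.map_of_injective ι0.injective
  choose σ hσ using fun t : (ZMod m)ˣ => exists_conj hζ t
  let ι : (ZMod m)ˣ → E →+* Ω := fun t => ι0.comp ((σ t : E ≃+* E) : E →+* E)
  have hι : ∀ t, ι t ζ = zt Ω z0 t := by
    intro t
    change ι0 (σ t ζ) = _
    rw [hσ, map_pow]
    rfl
  let R := bcr ρ Ω
  let U : (ZMod m)ˣ → Submodule Ω (Ω ⊗[ℚ_[ℓ]] V) := fun t => Eg Ω δ (zt Ω z0 t)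
  have hst : ∀ t, ∀ g : Γ, ∀ u ∈ U t, R g u ∈ U t := fun t g => Eg_stable hc _ g
  have hcp : ∀ t, charpolyOn (R F) (U t) (hst t F) = Q.map (ι t) := by
    intro t
    have h1 := hF.charpoly (ι t)
    rw [hι t] at h1
    exact h1 (hst t F)
  have hrk : ∀ t, Module.finrank Ω (U t) = Q.natDegree := by
    intro t
    have h1 := charpolyOn_natDegree (hst t F)
    rw [← h1, hcp, natDegree_map]
  have hpr : HasProj R := hasProj_bcr ρ Ω hss
  have hSI : ∀ t, SI R (U t) := by
    intro t
    refine Eg_SI hpr hc hend ?_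
    intro h
    have h1 := hrk t
    have h2 : Module.finrank Ω (U t) = 0 := by
      change Module.finrank Ω (Eg Ω δ (zt Ω z0 t)) = 0
      rw [h]
      exact finrank_bot _ _
    omega
  have hE : StronglyIrreducibleSum R U :=
    ⟨hSI, fun t => by rw [hrk t]; exact hdeg, iSup_Eg δ hz hδ⟩
  have hrefl : HasReflections R U := by
    obtain ⟨a, s, ha, hs, hr⟩ := reflects (Ω := Ω) hm hδ hc hγ
    intro t
    refine ⟨γ, ⟨2 * m, by positivity, ?_⟩, fun t => s * (zt Ω z0 t) ^ a, ?_, ?_, ?_, ?_⟩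
    · have h1 : ∀ x ∈ (⨆ t, U t), (R γ ^ (2 * m)) x = x := by
        intro x hx
        refine Submodule.iSup_induction U (motive := fun x => (R γ ^ (2 * m)) x = x) hx
          (fun t x hx => ?_) (map_zero _) (fun x y hx hy => ?_)
        · obtain ⟨d, φ, hd, hφ, h2⟩ := hr _ (zt_prim hz t)
          have h3 := refl_pow hd hφ h2 (2 * m) x hx
          have h4 : (s * zt Ω z0 t ^ a) ^ (2 * m) = 1 := by
            have h5 : s ^ 2 = 1 := by rcases hs with rfl | rfl <;> norm_num
            rw [mul_pow, pow_mul, h5, one_pow, one_mul, ← pow_mul,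
              show a * (2 * m) = m * (a * 2) by ring, pow_mul, (zt_prim hz t).pow_eq_one, one_pow]
          rw [h4, sub_self, zero_mul, zero_smul, add_zero, one_pow, one_smul, map_pow] at h3
          exact h3
        · rw [map_add, hx, hy]
      rw [hE.2.2] at h1
      exact LinearMap.ext fun x => h1 x trivial
    · intro j
      obtain ⟨d, φ, hd, hφ, h2⟩ := hr _ (zt_prim hz j)
      exact ⟨1, d, φ, hd, hφ, h2⟩
    · exact (root_ne hm (zt_prim hz t) ha hs).1
    · exact (root_ne hm (zt_prim hz t) ha hs).2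
    · intro j hj h
      apply hj
      have hs0 : s ≠ 0 := by rcases hs with rfl | rfl <;> norm_num
      exact zt_pow_inj hz ha (mul_left_cancel₀ hs0 h)
  have hFr : HasFrobenii R U := by
    refine hasFrobenii F (fun t => hst t F) hE.2.2 (fun t => ?_) (fun t => ?_)
    · rw [hcp]
      exact hsep.map
    · obtain ⟨a, b, ha, hb, hab⟩ := hroots
      -- extend the conjugate embedding to the algebraic closure
      let alg : Algebra E Ω := (ι t).toAlgebra
      have h1 : Nonempty (AlgebraicClosure E →ₐ[E] Ω) := ⟨IsAlgClosed.lift⟩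
      obtain ⟨J'⟩ := h1
      have h2 : ∀ x : AlgebraicClosure E, aeval x Q = 0 → (Q.map (ι t)).IsRoot (J' x) := by
        intro x hx
        rw [IsRoot.def, eval_map]
        change aeval (J' x) Q = 0
        rw [aeval_algHom_apply, hx, map_zero]
      refine ⟨J' a, J' b, ?_, ?_, fun k hk h => hab k hk ?_⟩
      · rw [hcp]
        exact h2 a ha
      · rw [hcp]
        exact h2 b hb
      · rw [← map_pow, ← map_pow] at h
        exact J'.toRingHom.injective h
  -- the form
  have hl1 : ∀ u, (∀ v, bcb Ω ω u v = 0) → u = 0 := fun u hu =>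
    bcb_nondeg_left ω hnondeg (left_nondeg ω halt hnondeg) u hu
  have hinv := bcb_inv (Ω := Ω) ρ χ ω hω
  have hisoΩ : ∀ x y, bcb Ω ω (δ.baseChange Ω x) (δ.baseChange Ω y) = bcb Ω ω x y := by
    intro x y
    induction x with
    | zero => simp only [map_zero, LinearMap.zero_apply]
    | add x x' hx hx' => simp only [map_add, LinearMap.add_apply, hx, hx']
    | tmul a x =>
      induction y with
      | zero => simp only [map_zero]
      | add y y' hy hy' => simp only [map_add, hy, hy']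
      | tmul b y =>
        rw [LinearMap.baseChange_tmul, LinearMap.baseChange_tmul, bcb_tmul, bcb_tmul, hiso]
  have hdual : ∀ t, Du R (bcc χ Ω) (U t) (U (-t)) := by
    intro t
    refine ⟨⊤, inferInstance, bcb Ω ω, ?_, fun g _ u _ v _ => hinv g u v⟩
    by_contra hcon
    push Not at hcon
    obtain ⟨u, hu, hu0⟩ := Submodule.exists_mem_ne_zero_of_ne_bot (hSI t).1
    apply hu0
    apply hl1
    intro v
    have hv : v ∈ (⨆ t, U t) := by
      rw [hE.2.2]
      trivial
    refine Submodule.iSup_induction U (motive := fun v => bcb Ω ω u v = 0) hv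
      (fun s v hv => ?_) (map_zero _) (fun x y hx hy => by rw [map_add, hx, hy, add_zero])
    by_cases hs : s = -t
    · rw [hs] at hv
      exact hcon u hu v hv
    · have h1 := hisoΩ u v
      rw [(mem_Eg Ω δ).1 hu, (mem_Eg Ω δ).1 hv, bil_smul] at h1
      by_contra h2
      have h3 : zt Ω z0 t * zt Ω z0 s = 1 := by
        have h4 : (zt Ω z0 t * zt Ω z0 s - 1) * bcb Ω ω u v = 0 := by
          rw [sub_mul, one_mul, h1, sub_self]
        exact sub_eq_zero.1 ((mul_eq_zero.1 h4).resolve_right h2)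
      apply hs
      apply zt_inj hz
      have h5 : zt Ω z0 t * zt Ω z0 (-t) = 1 := by
        unfold zt
        rw [← pow_add, hz.pow_eq_one_iff_dvd, ← ZMod.natCast_eq_zero_iff, Nat.cast_add,
          ZMod.natCast_zmod_val, ZMod.natCast_zmod_val, Units.val_neg, add_neg_cancel]
      have h6 : zt Ω z0 t ≠ 0 := (zt_prim hz t).ne_zero (NeZero.ne m)
      exact mul_left_cancel₀ h6 (h3.trans h5.symm)
  -- no Weil families
  have hno : ∀ (P : Type) [Fintype P] [Nonempty P] (L : P → Submodule Ω (Ω ⊗[ℚ_[ℓ]] V)),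
      ¬Pool.Agent.Y126.Notions.IsWeilFamily R (bcc χ Ω) L := by
    intro P _ _ L
    refine noWeil hpr hE hst hdual F (fun N hN c P _ _ i h => ?_) P L
    refine exists_neg hn c i fun u => ?_
    refine sum_of_relation hζ hsig σ hσ Q.natDegree N hN c i ?_ u
    apply ι0.injective
    rw [map_prod, map_pow, map_natCast]
    have h1 : ∀ p, LinearMap.det ((R F).restrict (hst (i p) F)) =
        ι0 ((-1) ^ Q.natDegree * σ (i p) (Q.coeff 0)) := by
      intro p
      rw [det_of_charpoly (hst (i p) F), hcp, hrk, coeff_map, map_mul, map_pow, map_neg, map_one]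
      rfl
    have h2 : bcc χ Ω F = (q : Ω) := by
      rw [bcc_apply, hF.cyclo, map_natCast]
    rw [Finset.prod_congr rfl fun p _ => by rw [h1 p], h2] at h
    rw [← h]
    exact Finset.prod_congr rfl fun p _ => by rw [map_pow]
  exact generated_of_ext ρ χ Ω fun m' φ hφ =>
    Pool.Agent.Y126.Toric.pt_of_noWeil hno (refl_det _ hl1 hinv hpr hE hrefl hFr φ hφ)

end main

end

end Pool.Agent.Helper8K9.CR
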