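import Mathlib
import Pool.Agent.Helper8K9.CR.Main
import Pool.Agent.H916R2.OddChar

/-!
# Nondegenerate signatures
-/

set_option autoImplicit false

namespace Pool.Agent.Helper8K9.CR

open Finset Pool.Agent.H916R2

noncomputable section

section fourier

variable {m : ℕ} [NeZero m]

/-- A function is nondegenerate if its odd character sums do not vanish. -/
theorem nondegenerate_of_char {n : (ZMod m)ˣ → ℤ}
    (h : ∀ χ : DirichletCharacter ℂ m, χ.Odd → ∑ t : (ZMod m)ˣ, χ t * (n t : ℂ) ≠ 0) :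
    Nondegenerate n := by
  classical
  intro κ hodd hz
  -- the character sums of `κ` vanish
  have h1 : ∀ χ : DirichletCharacter ℂ m, ∑ s : (ZMod m)ˣ, χ ((s⁻¹ : (ZMod m)ˣ) : ZMod m) * (κ s : ℂ) = 0 := by
    intro χ
    rcases χ.even_or_odd with he | ho
    · -- even characters
      have h2 : ∑ s : (ZMod m)ˣ, χ ((s⁻¹ : (ZMod m)ˣ) : ZMod m) * (κ s : ℂ) =
          -∑ s : (ZMod m)ˣ, χ ((s⁻¹ : (ZMod m)ˣ) : ZMod m) * (κ s : ℂ) := by
        conv_lhs => rw [← Equiv.sum_comp (Equiv.neg (ZMod m)ˣ)]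
        rw [← Finset.sum_neg_distrib]
        refine Finset.sum_congr rfl fun s _ => ?_
        have hi : (-s)⁻¹ = -s⁻¹ := by rw [inv_eq_iff_mul_eq_one, neg_mul_neg, mul_inv_cancel]
        rw [Equiv.neg_apply, hodd, hi, Units.val_neg, he.eval_neg]
        push_cast
        ring
      have h3 : (2 : ℂ) * ∑ s : (ZMod m)ˣ, χ ((s⁻¹ : (ZMod m)ˣ) : ZMod m) * (κ s : ℂ) = 0 := by
        linear_combination h2
      exact (mul_eq_zero.1 h3).resolve_left two_ne_zero
    · have h2 : (∑ s : (ZMod m)ˣ, χ ((s⁻¹ : (ZMod m)ˣ) : ZMod m) * (κ s : ℂ)) *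
          ∑ t : (ZMod m)ˣ, χ t * (n t : ℂ) = 0 := by
        rw [Finset.sum_mul]
        have h3 : ∀ s : (ZMod m)ˣ, χ ((s⁻¹ : (ZMod m)ˣ) : ZMod m) * (κ s : ℂ) *
            ∑ t : (ZMod m)ˣ, χ t * (n t : ℂ) =
            ∑ t : (ZMod m)ˣ, χ t * ((κ s : ℂ) * (n (s * t) : ℂ)) := by
          intro s
          rw [← Equiv.sum_comp (Equiv.mulLeft s), Finset.mul_sum]
          refine Finset.sum_congr rfl fun t _ => ?_
          rw [Equiv.coe_mulLeft, Units.val_mul, map_mul]
          have h4 : χ ((s⁻¹ : (ZMod m)ˣ) : ZMod m) * χ s = 1 := by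
            rw [← map_mul, ← Units.val_mul, inv_mul_cancel, Units.val_one, map_one]
          linear_combination ((κ s : ℂ) * χ t * n (s * t)) * h4
        rw [Finset.sum_congr rfl fun s _ => h3 s, Finset.sum_comm]
        refine Finset.sum_eq_zero fun t _ => ?_
        rw [← Finset.mul_sum]
        have h5 : ∑ s : (ZMod m)ˣ, ((κ s : ℂ) * (n (s * t) : ℂ)) = 0 := by
          have h6 := hz t
          exact_mod_cast h6
        rw [h5, mul_zero]
      exact (mul_eq_zero.1 h2).resolve_right (h χ ho)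
  intro t
  have h2 : ∑ χ : DirichletCharacter ℂ m, ∑ s : (ZMod m)ˣ,
      χ ((s⁻¹ : (ZMod m)ˣ) : ZMod m) * χ t * (κ s : ℂ) = (Nat.totient m : ℂ) * κ t := by
    rw [Finset.sum_comm]
    have h3 : ∀ s : (ZMod m)ˣ, ∑ χ : DirichletCharacter ℂ m,
        χ ((s⁻¹ : (ZMod m)ˣ) : ZMod m) * χ t * (κ s : ℂ) =
        if s = t then (Nat.totient m : ℂ) * κ t else 0 := by
      intro s
      rw [← Finset.sum_mul]
      have h4 := DirichletCharacter.sum_char_inv_mul_char_eq ℂ s.isUnit (t : ZMod m)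
      rw [← ZMod.inv_coe_unit, h4]
      by_cases hst : s = t
      · rw [if_pos hst, if_pos (by rw [hst]), hst]
      · rw [if_neg hst, if_neg (fun h => hst (Units.ext h)), zero_mul]
    rw [Finset.sum_congr rfl fun s _ => h3 s, Finset.sum_ite_eq', if_pos (Finset.mem_univ t)]
  have h3 : ∑ χ : DirichletCharacter ℂ m, ∑ s : (ZMod m)ˣ,
      χ ((s⁻¹ : (ZMod m)ˣ) : ZMod m) * χ t * (κ s : ℂ) = 0 := by
    refine Finset.sum_eq_zero fun χ _ => ?_
    have h4 : ∀ s : (ZMod m)ˣ, χ ((s⁻¹ : (ZMod m)ˣ) : ZMod m) * χ t * (κ s : ℂ) =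
        χ t * (χ ((s⁻¹ : (ZMod m)ˣ) : ZMod m) * (κ s : ℂ)) := fun s => by ring
    rw [Finset.sum_congr rfl fun s _ => h4 s, ← Finset.mul_sum, h1 χ, mul_zero]
  rw [h3] at h2
  have h4 : (Nat.totient m : ℂ) ≠ 0 := by
    exact_mod_cast (Nat.totient_pos.2 (NeZero.pos m)).ne'
  have h5 := (mul_eq_zero.1 h2.symm).resolve_left h4
  exact_mod_cast h5

end fourier

section superelliptic

variable {m : ℕ} [NeZero m]

theorem SS_unit (χ : DirichletCharacter ℂ m) (u : (ZMod m)ˣ) (b : ZMod m) :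
    SS χ (u * b) = χ ((u⁻¹ : (ZMod m)ˣ) : ZMod m) * SS χ b := by
  unfold SS
  rw [← Equiv.sum_comp (Equiv.mulRight u⁻¹), Finset.mul_sum]
  refine Finset.sum_congr rfl fun t _ => ?_
  rw [Equiv.coe_mulRight, Units.val_mul, map_mul]
  have h1 : (t : ZMod m) * ((u⁻¹ : (ZMod m)ˣ) : ZMod m) * (u * b) = t * b := by
    rw [mul_assoc, ← mul_assoc ((u⁻¹ : (ZMod m)ˣ) : ZMod m), ← Units.val_mul, inv_mul_cancel,
      Units.val_one, one_mul]
  rw [h1]
  ring

omit [NeZero m] in
theorem odd_ne_one {χ : DirichletCharacter ℂ m} (hχ : χ.Odd) : χ ≠ 1 := by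
  rintro rfl
  unfold DirichletCharacter.Odd at hχ
  rw [MulChar.one_apply (by simp : IsUnit (-1 : ZMod m))] at hχ
  norm_num at hχ

theorem sum_units_zero {χ : DirichletCharacter ℂ m} (hχ : χ ≠ 1) :
    ∑ t : (ZMod m)ˣ, χ t = 0 := by
  obtain ⟨u, hu⟩ := MulChar.ne_one_iff.1 hχ
  have h1 : χ u * ∑ t : (ZMod m)ˣ, χ t = ∑ t : (ZMod m)ˣ, χ t := by
    conv_rhs => rw [← Equiv.sum_comp (Equiv.mulLeft u)]
    rw [Finset.mul_sum]
    refine Finset.sum_congr rfl fun t _ => ?_
    rw [Equiv.coe_mulLeft, Units.val_mul, map_mul]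
  have h2 : (χ u - 1) * ∑ t : (ZMod m)ˣ, χ t = 0 := by
    rw [sub_mul, h1, one_mul, sub_self]
  exact (mul_eq_zero.1 h2).resolve_left (sub_ne_zero.2 hu)

/-- The signature of the part of the cohomology of the curve `y ^ m = ∏ (x - x_i) ^ (a_i)` on which
the automorphism of order `m` acts with primitive roots of unity. -/
def sig (m : ℕ) {I : Type} [Fintype I] (a : I → (ZMod m)ˣ) (t : (ZMod m)ˣ) : ℤ :=
  ((∑ i, ((t * a i : (ZMod m)ˣ) : ZMod m).val : ℕ) : ℤ) / m - 1

theorem sig_cast {I : Type} [Fintype I] (a : I → (ZMod m)ˣ) (ha : ∑ i, (a i : ZMod m) = 0)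
    (t : (ZMod m)ˣ) :
    ((sig m a t : ℤ) : ℂ) = (∑ i, (((t * a i : (ZMod m)ˣ) : ZMod m).val : ℂ)) / m - 1 := by
  have hm : (m : ℂ) ≠ 0 := by exact_mod_cast NeZero.ne m
  have h1 : (m : ℤ) ∣ ((∑ i, ((t * a i : (ZMod m)ˣ) : ZMod m).val : ℕ) : ℤ) := by
    rw [Int.natCast_dvd_natCast, ← ZMod.natCast_eq_zero_iff, Nat.cast_sum]
    simp only [ZMod.natCast_val, ZMod.cast_id', id_eq, Units.val_mul]
    rw [← Finset.mul_sum, ha, mul_zero]
  unfold sig
  rw [Int.cast_sub, Int.cast_div h1 (by exact_mod_cast NeZero.ne m)]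
  push_cast
  rfl

theorem sum_sig (hm : 2 ≤ m) {I : Type} [Fintype I] (a : I → (ZMod m)ˣ)
    (ha : ∑ i, (a i : ZMod m) = 0) {χ : DirichletCharacter ℂ m} (hχ : χ.Odd) :
    2 * m * ∑ t : (ZMod m)ˣ, χ t * (sig m a t : ℂ) =
      (∑ i, χ (((a i)⁻¹ : (ZMod m)ˣ) : ZMod m)) * SS χ 1 := by
  have hm0 : (m : ℂ) ≠ 0 := by exact_mod_cast NeZero.ne m
  have hz := sum_units_zero (odd_ne_one hχ)
  have hval : ∀ i : I, 2 * ∑ t : (ZMod m)ˣ, χ t * (((t * a i : (ZMod m)ˣ) : ZMod m).val : ℂ) =
      χ (((a i)⁻¹ : (ZMod m)ˣ) : ZMod m) * SS χ 1 := by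
    intro i
    rw [← SS_unit, mul_one]
    unfold SS
    have h1 : ∀ t : (ZMod m)ˣ, χ t * (saw ((t : ZMod m) * (a i : ZMod m)) : ℂ) =
        2 * (χ t * (((t * a i : (ZMod m)ˣ) : ZMod m).val : ℂ)) - m * χ t := by
      intro t
      have h2 : (t : ZMod m) * (a i : ZMod m) ≠ 0 := by
        rw [← Units.val_mul]
        have : Fact (1 < m) := ⟨hm⟩
        exact Units.ne_zero _
      unfold saw
      rw [if_neg h2, Units.val_mul]
      push_cast
      ring
    rw [Finset.sum_congr rfl fun t _ => h1 t, Finset.sum_sub_distrib, ← Finset.mul_sum,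
      ← Finset.mul_sum, hz, mul_zero, sub_zero]
  have h3 : ∀ t : (ZMod m)ˣ, χ t * (sig m a t : ℂ) =
      (∑ i, χ t * (((t * a i : (ZMod m)ˣ) : ZMod m).val : ℂ)) / m - χ t := by
    intro t
    rw [sig_cast a ha, ← Finset.mul_sum]
    ring
  rw [Finset.sum_congr rfl fun t _ => h3 t, Finset.sum_sub_distrib, hz, sub_zero,
    ← Finset.sum_div, Finset.sum_comm, Finset.sum_mul]
  rw [← Finset.sum_congr rfl fun i _ => hval i, ← Finset.mul_sum]
  field_simp

/-- The distribution relation. -/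
theorem saw_distribution {d M : ℕ} (hd : 0 < d) (hM : 0 < M) (hm : m = d * M) (t : ZMod m)
    (ht : (ZMod.castHom (Dvd.intro_left d hm.symm) (ZMod M)) t ≠ 0) :
    saw ((d : ZMod m) * t) =
      ∑ u ∈ Finset.univ.filter fun u : ZMod m => (ZMod.castHom (Dvd.intro_left d hm.symm)
        (ZMod M)) u = (ZMod.castHom (Dvd.intro_left d hm.symm) (ZMod M)) t, saw u := by
  classical
  have hMz : NeZero M := ⟨hM.ne'⟩
  set c := ZMod.castHom (Dvd.intro_left d hm.symm) (ZMod M) with hc
  set β : ℕ := (c t).val with hβ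
  have hβ0 : 0 < β := by
    rw [Nat.pos_iff_ne_zero]
    intro h
    exact ht ((ZMod.val_eq_zero _).1 h)
  have hβM : β < M := ZMod.val_lt _
  have hcβ : ∀ j : ℕ, c ((β + j * M : ℕ) : ZMod m) = c t := by
    intro j
    rw [map_natCast]
    push_cast
    rw [ZMod.natCast_self, mul_zero, add_zero, hβ, ZMod.natCast_zmod_val]
  have hlt : ∀ j : ℕ, j < d → β + j * M < m := by
    intro j hj
    rw [hm]
    calc β + j * M < M + j * M := by omega
      _ = (j + 1) * M := by ring
      _ ≤ d * M := Nat.mul_le_mul_right _ hj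
  have hsaw : ∀ x : ℕ, 0 < x → x < m → saw ((x : ℕ) : ZMod m) = 2 * (x : ℤ) - m := by
    intro x hx0 hx
    have h1 : ((x : ℕ) : ZMod m) ≠ 0 := by
      rw [Ne, ZMod.natCast_eq_zero_iff]
      intro h
      exact absurd (Nat.le_of_dvd hx0 h) (by omega)
    unfold saw
    rw [if_neg h1, ZMod.val_natCast, Nat.mod_eq_of_lt hx]
  have h1 : ∑ u ∈ Finset.univ.filter (fun u : ZMod m => c u = c t), saw u =
      ∑ j ∈ Finset.range d, saw ((β + j * M : ℕ) : ZMod m) := by
    symm
    refine Finset.sum_nbij (fun j => ((β + j * M : ℕ) : ZMod m)) ?_ ?_ ?_ ?_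
    · intro j _
      simp only [Finset.mem_filter, Finset.mem_univ, true_and]
      exact hcβ j
    · intro j hj j' hj' h
      have h2 := congrArg ZMod.val h
      simp only at h2
      rw [ZMod.val_natCast, ZMod.val_natCast,
        Nat.mod_eq_of_lt (hlt j (Finset.mem_range.1 (Finset.mem_coe.1 hj))),
        Nat.mod_eq_of_lt (hlt j' (Finset.mem_range.1 (Finset.mem_coe.1 hj')))] at h2
      exact Nat.eq_of_mul_eq_mul_right hM (by omega)
    · intro u hu
      simp only [Finset.coe_filter, Finset.mem_univ, true_and, Set.mem_ofPred_eq] at hu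
      refine ⟨u.val / M, ?_, ?_⟩
      · rw [Finset.mem_coe, Finset.mem_range, Nat.div_lt_iff_lt_mul hM, ← hm]
        exact ZMod.val_lt u
      · have h2 : β = u.val % M := by
          rw [hβ, ← hu, hc, ZMod.castHom_apply, ZMod.cast_eq_val, ZMod.val_natCast]
        change ((β + u.val / M * M : ℕ) : ZMod m) = u
        rw [h2, mul_comm, Nat.mod_add_div, ZMod.natCast_zmod_val]
    · intro j _
      rfl
  have h2 : (d : ZMod m) * t = ((d * β : ℕ) : ZMod m) := by
    have h3 : c (t - (β : ZMod m)) = 0 := by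
      rw [map_sub, map_natCast, hβ, ZMod.natCast_zmod_val, sub_self]
    rw [hc, ZMod.castHom_apply, ZMod.cast_eq_val, ZMod.natCast_eq_zero_iff] at h3
    obtain ⟨y, hy⟩ := h3
    have h4 : t = (β : ZMod m) + ((M * y : ℕ) : ZMod m) := by
      rw [← hy, ZMod.natCast_zmod_val]
      ring
    have h5 : (d : ZMod m) * ((M * y : ℕ) : ZMod m) = 0 := by
      rw [← Nat.cast_mul, ← mul_assoc, ← hm, Nat.cast_mul, ZMod.natCast_self, zero_mul]
    conv_lhs => rw [h4]
    rw [mul_add, h5, add_zero, Nat.cast_mul]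
  rw [h1, h2, hsaw _ (Nat.mul_pos hd hβ0) (by rw [hm]; exact Nat.mul_lt_mul_of_pos_left hβM hd)]
  rw [Finset.sum_congr rfl fun j hj => hsaw _ (by omega) (hlt j (Finset.mem_range.1 hj))]
  have h3 : (2 : ℤ) * ∑ j ∈ Finset.range d, (j : ℤ) = d * (d - 1) := by
    have h4 := Finset.sum_range_id_mul_two d
    have h5 : ((∑ j ∈ Finset.range d, j : ℕ) : ℤ) * 2 = (d : ℤ) * ((d - 1 : ℕ) : ℤ) := by
      exact_mod_cast h4
    rw [Nat.cast_sub hd] at h5
    push_cast at h5
    linarith
  have hm' : (m : ℤ) = d * M := by exact_mod_cast hm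
  push_cast
  have h6 : ∀ j : ℕ, (2 : ℤ) * (β + j * M) - m = (2 * β - m) + 2 * M * j := fun j => by ring
  rw [Finset.sum_congr rfl fun j _ => h6 j, Finset.sum_add_distrib, Finset.sum_const,
    Finset.card_range, ← Finset.mul_sum, nsmul_eq_mul]
  linear_combination (-(M : ℤ)) * h3 + ((d : ℤ) - 1) * hm'

/-- For prime powers the sums for the class `1` do not vanish. -/
theorem SS_one_ne_zero {p k : ℕ} (hp : p.Prime) (hm : m = p ^ k) {χ : DirichletCharacter ℂ m}
    (hχ : χ.Odd) : SS χ 1 ≠ 0 := by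
  classical
  obtain ⟨a, ha⟩ := exists_SS_ne_zero χ hχ
  intro h1
  apply ha
  -- write `a` as a unit times a power of `p`
  by_cases ha0 : a = 0
  · rw [ha0]
    unfold SS
    refine Finset.sum_eq_zero fun t _ => ?_
    rw [mul_zero, saw_zero, Int.cast_zero, mul_zero]
  have hv0 : a.val ≠ 0 := fun h => ha0 ((ZMod.val_eq_zero a).1 h)
  obtain ⟨i, b, hb, hab⟩ := Nat.exists_eq_pow_mul_and_not_dvd hv0 p hp.ne_one
  have hik : i < k := by
    by_contra hcon
    push Not at hcon
    have h2 : m ∣ a.val := by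
      rw [hab]
      have h3 : p ^ k ∣ p ^ i * b := Dvd.dvd.mul_right (pow_dvd_pow p hcon) b
      rwa [← hm] at h3
    exact absurd (Nat.le_of_dvd (Nat.pos_of_ne_zero hv0) h2) (not_le.2 (ZMod.val_lt a))
  have hbc : b.Coprime m := by
    rw [hm]
    exact Nat.Coprime.pow_right k ((Nat.Prime.coprime_iff_not_dvd hp).2 hb).symm
  have hau : a = (ZMod.unitOfCoprime b hbc : ZMod m) * ((p ^ i : ℕ) : ZMod m) := by
    rw [ZMod.coe_unitOfCoprime, ← Nat.cast_mul, mul_comm, ← hab, ZMod.natCast_zmod_val]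
  rw [hau, SS_unit]
  suffices h : SS χ ((p ^ i : ℕ) : ZMod m) = 0 by rw [h, mul_zero]
  set d := p ^ i with hd
  set M := p ^ (k - i) with hM
  have hd0 : 0 < d := pow_pos hp.pos i
  have hM0 : 0 < M := pow_pos hp.pos _
  have hmdM : m = d * M := by rw [hm, hd, hM, ← pow_add]; congr 1; omega
  set c := ZMod.castHom (Dvd.intro_left d hmdM.symm) (ZMod M) with hc
  have hM1 : 1 < M := Nat.one_lt_pow (by omega) hp.one_lt
  have hMf : Fact (1 < M) := ⟨hM1⟩
  -- the sums over the classes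
  let G : ZMod m → ℂ := fun u => ∑ t ∈ Finset.univ.filter (fun t : ZMod m => c u = c t), χ t
  have hGu : ∀ u : ZMod m, G u = χ u * G 1 := by
    intro u
    by_cases hu : IsUnit u
    · obtain ⟨v, rfl⟩ := hu
      change ∑ t ∈ Finset.univ.filter (fun t : ZMod m => c v = c t), χ t =
        χ v * ∑ t ∈ Finset.univ.filter (fun t : ZMod m => c 1 = c t), χ t
      rw [Finset.mul_sum]
      symm
      refine Finset.sum_nbij' (fun t => v * t) (fun t => ((v⁻¹ : (ZMod m)ˣ) : ZMod m) * t) ?_ ?_ ?_ ?_ ?_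
      · intro t ht
        simp only [Finset.mem_filter, Finset.mem_univ, true_and] at ht ⊢
        rw [map_mul, ← ht, map_one, mul_one]
      · intro t ht
        simp only [Finset.mem_filter, Finset.mem_univ, true_and] at ht ⊢
        rw [map_mul, ← ht, ← map_mul, ← Units.val_mul, inv_mul_cancel, Units.val_one]
      · intro t _
        change ((v⁻¹ : (ZMod m)ˣ) : ZMod m) * (v * t) = t
        rw [← mul_assoc, ← Units.val_mul, inv_mul_cancel, Units.val_one, one_mul]
      · intro t _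
        change (v : ZMod m) * (((v⁻¹ : (ZMod m)ˣ) : ZMod m) * t) = t
        rw [← mul_assoc, ← Units.val_mul, mul_inv_cancel, Units.val_one, one_mul]
      · intro t _
        rw [map_mul]
    · rw [MulChar.map_nonunit χ hu, zero_mul]
      refine Finset.sum_eq_zero fun t ht => ?_
      simp only [Finset.mem_filter, Finset.mem_univ, true_and] at ht
      refine MulChar.map_nonunit χ fun htu => hu ?_
      -- `t` a unit implies `u` a unit
      have hcu : ∀ x : ZMod m, IsUnit x ↔ ¬ p ∣ x.val := by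
        intro x
        have h2 : IsUnit x ↔ x.val.Coprime m := by
          conv_lhs => rw [← ZMod.natCast_zmod_val x]
          exact ZMod.isUnit_iff_coprime _ _
        have h3 : ∀ y : ℕ, y.Coprime m ↔ ¬ p ∣ y := by
          intro y
          rw [hm, Nat.coprime_pow_right_iff (by omega), Nat.coprime_comm,
            Nat.Prime.coprime_iff_not_dvd hp]
        rw [h2, h3]
      have hpM : p ∣ M := dvd_pow_self p (by omega)
      have hcx : ∀ x : ZMod m, (p ∣ x.val ↔ p ∣ (c x).val) := by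
        intro x
        rw [hc, ZMod.castHom_apply, ZMod.cast_eq_val, ZMod.val_natCast]
        exact (Nat.dvd_mod_iff hpM).symm
      rw [hcu, hcx, ht, ← hcx, ← hcu]
      exact htu
  have hG1 : SS χ ((d : ℕ) : ZMod m) = G 1 * SS χ 1 := by
    have h2 : ∀ t : (ZMod m)ˣ, saw ((t : ZMod m) * ((d : ℕ) : ZMod m)) =
        ∑ u ∈ Finset.univ.filter (fun u : ZMod m => c u = c t), saw u := by
      intro t
      rw [mul_comm]
      exact saw_distribution hd0 hM0 hmdM t ((t.isUnit.map c).ne_zero)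
    have h3 : SS χ ((d : ℕ) : ZMod m) = ∑ t : ZMod m, χ t *
        ∑ u ∈ Finset.univ.filter (fun u : ZMod m => c u = c t), (saw u : ℂ) := by
      unfold SS
      have h4 : ∀ t : (ZMod m)ˣ, χ t * (saw ((t : ZMod m) * ((d : ℕ) : ZMod m)) : ℂ) =
          χ t * ∑ u ∈ Finset.univ.filter (fun u : ZMod m => c u = c t), (saw u : ℂ) := by
        intro t
        rw [h2 t]
        push_cast
        rfl
      rw [Finset.sum_congr rfl fun t _ => h4 t]
      symm
      rw [← Finset.sum_filter_add_sum_filter_not Finset.univ (fun t : ZMod m => IsUnit t)]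
      have h5 : ∑ t ∈ Finset.univ.filter (fun t : ZMod m => ¬ IsUnit t), χ t *
          ∑ u ∈ Finset.univ.filter (fun u : ZMod m => c u = c t), (saw u : ℂ) = 0 := by
        refine Finset.sum_eq_zero fun t ht => ?_
        simp only [Finset.mem_filter, Finset.mem_univ, true_and] at ht
        rw [MulChar.map_nonunit χ ht, zero_mul]
      rw [h5, add_zero]
      symm
      refine Finset.sum_bij (fun (t : (ZMod m)ˣ) _ => (t : ZMod m)) ?_ ?_ ?_ ?_
      · intro t _
        simp only [Finset.mem_filter, Finset.mem_univ, true_and]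
        exact t.isUnit
      · intro t _ t' _ h
        exact Units.ext h
      · intro t ht
        simp only [Finset.mem_filter, Finset.mem_univ, true_and] at ht
        obtain ⟨v, rfl⟩ := ht
        exact ⟨v, Finset.mem_univ _, rfl⟩
      · intro t _
        rfl
    rw [h3]
    have h6 : ∑ t : ZMod m, χ t *
        ∑ u ∈ Finset.univ.filter (fun u : ZMod m => c u = c t), (saw u : ℂ) =
        ∑ u : ZMod m, (saw u : ℂ) * G u := by
      simp only [G, Finset.mul_sum, Finset.sum_filter]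
      rw [Finset.sum_comm]
      refine Finset.sum_congr rfl fun u _ => Finset.sum_congr rfl fun t _ => ?_
      split_ifs
      · ring
      · rw [mul_zero, mul_zero]
    rw [h6]
    have h7 : ∀ u : ZMod m, (saw u : ℂ) * G u = G 1 * (χ u * (saw u : ℂ)) := by
      intro u
      rw [hGu]
      ring
    rw [Finset.sum_congr rfl fun u _ => h7 u, ← Finset.mul_sum]
    congr 1
    unfold SS
    symm
    rw [← Finset.sum_filter_add_sum_filter_not Finset.univ (fun t : ZMod m => IsUnit t)]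
    have h5 : ∑ t ∈ Finset.univ.filter (fun t : ZMod m => ¬ IsUnit t), χ t * (saw t : ℂ) = 0 := by
      refine Finset.sum_eq_zero fun t ht => ?_
      simp only [Finset.mem_filter, Finset.mem_univ, true_and] at ht
      rw [MulChar.map_nonunit χ ht, zero_mul]
    rw [h5, add_zero]
    refine Finset.sum_bij (fun (t : (ZMod m)ˣ) _ => (t : ZMod m)) ?_ ?_ ?_ ?_
    · intro t _
      simp only [Finset.mem_filter, Finset.mem_univ, true_and]
      exact t.isUnit
    · intro t _ t' _ h
      exact Units.ext h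
    · intro t ht
      simp only [Finset.mem_filter, Finset.mem_univ, true_and] at ht
      obtain ⟨v, rfl⟩ := ht
      exact ⟨v, Finset.mem_univ _, rfl⟩
    · intro t _
      rw [mul_one]
  rw [hG1, h1, mul_zero]

/-- For prime powers `m` the signatures of superelliptic curves are nondegenerate if the odd
character sums of the exponents do not vanish. -/
theorem sig_nondegenerate {p k : ℕ} (hp : p.Prime) (hm : m = p ^ k) (hm2 : 2 ≤ m) {I : Type}
    [Fintype I] (a : I → (ZMod m)ˣ) (ha : ∑ i, (a i : ZMod m) = 0)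
    (h : ∀ χ : DirichletCharacter ℂ m, χ.Odd → ∑ i, χ (a i) ≠ 0) : Nondegenerate (sig m a) := by
  refine nondegenerate_of_char fun χ hχ h0 => ?_
  have h1 := sum_sig hm2 a ha hχ
  rw [h0, mul_zero] at h1
  rcases mul_eq_zero.1 h1.symm with h2 | h2
  · have h3 : (χ⁻¹).Odd := by
      unfold DirichletCharacter.Odd at hχ ⊢
      rw [MulChar.inv_apply_eq_inv', hχ]
      norm_num
    apply h χ⁻¹ h3
    rw [← h2]
    refine Finset.sum_congr rfl fun i _ => ?_
    rw [MulChar.inv_apply, Ring.inverse_unit]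
  · exact SS_one_ne_zero hp hm hχ h2

omit [NeZero m] in
/-- The condition holds if more than half of the exponents are equal. -/
theorem sum_ne_zero_of_half {I : Type} [Fintype I] (a : I → (ZMod m)ˣ) (b : (ZMod m)ˣ)
    [DecidableEq (ZMod m)ˣ]
    (hb : Fintype.card I < 2 * (Finset.univ.filter fun i => a i = b).card)
    (χ : DirichletCharacter ℂ m) : ∑ i, χ (a i) ≠ 0 := by
  classical
  intro h
  have hnorm : ∀ u : (ZMod m)ˣ, ‖χ u‖ = 1 := fun u => DirichletCharacter.unit_norm_eq_one χ u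
  rw [← Finset.sum_filter_add_sum_filter_not Finset.univ (fun i => a i = b)] at h
  have h1 : ∑ i ∈ Finset.univ.filter (fun i => a i = b), χ (a i) =
      ((Finset.univ.filter fun i => a i = b).card : ℂ) * χ b := by
    rw [Finset.sum_congr rfl (g := fun _ => χ b) (fun i hi => by rw [(Finset.mem_filter.1 hi).2]),
      Finset.sum_const, nsmul_eq_mul]
  rw [h1] at h
  have h2 := congrArg norm (eq_neg_of_add_eq_zero_left h)
  rw [norm_mul, hnorm, mul_one, norm_neg, Complex.norm_natCast] at h2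
  have h3 : ‖∑ i ∈ Finset.univ.filter (fun i => ¬ a i = b), χ (a i)‖ ≤
      ((Finset.univ.filter fun i => ¬ a i = b).card : ℝ) := by
    refine (norm_sum_le _ _).trans ?_
    rw [Finset.sum_congr rfl (fun i _ => hnorm (a i)), Finset.sum_const, nsmul_eq_mul, mul_one]
  have h4 : (Finset.univ.filter fun i => a i = b).card +
      (Finset.univ.filter fun i => ¬ a i = b).card = Fintype.card I := by
    rw [Finset.card_filter_add_card_filter_not, Finset.card_univ]
  rw [← h2] at h3
  have h5 : (Finset.univ.filter fun i => a i = b).card ≤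
      (Finset.univ.filter fun i => ¬ a i = b).card := by exact_mod_cast h3
  omega

end superelliptic

end

end Pool.Agent.Helper8K9.CR
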